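import Pool.Agent.H71.FK.USYM

/-!
# Row S2G
-/

set_option autoImplicit false

namespace Pool.Agent.H71.FK

open Set Pool.Agent.H75.HCI Pool.Agent.H16.FK

lemma exists_tau {k : ℕ} {a : List (Fin k)} (hn : a.Nodup) (hl : a.length = k) :
    ∃ τ : Equiv.Perm (Fin k), a = (List.finRange k).map τ := by
  let f : Fin k → Fin k := fun i => a[i.1]'(by rw [hl]; exact i.2)
  have hf : Function.Injective f := by
    intro i i' h
    exact Fin.ext ((hn.getElem_inj_iff).mp h)
  refine ⟨Equiv.ofBijective f (Finite.injective_iff_bijective.mp hf), ?_⟩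
  apply List.ext_getElem
  · simp [hl]
  · intro i h1 h2
    simp [f]

lemma alls_two {k : ℕ} {α : Type} (x : Fin 2 × Fin k → α) :
    (alls k (List.finRange 2)).map x =
      (List.finRange k).map (fun y => x (0, y)) ++ (List.finRange k).map (fun y => x (1, y)) := by
  have : List.finRange 2 = [0, 1] := rfl
  unfold alls
  rw [this]
  simp [Function.comp_def]

theorem pf_S2G (hG : T_GRP) : T_S2G := by
  intro kx k L T hP hF hL hne X Y hX hY h1 h2
  obtain ⟨a, b, ha, hb, h3⟩ := h1
  obtain ⟨a', b', ha', hb', h4⟩ := h2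
  obtain ⟨ta, rfl⟩ := exists_tau ha.1 ha.2.1
  obtain ⟨tb, rfl⟩ := exists_tau hb.1 hb.2.1
  obtain ⟨ta', rfl⟩ := exists_tau ha'.1 ha'.2.1
  obtain ⟨tb', rfl⟩ := exists_tau hb'.1 hb'.2.1
  let x : Fin 2 × Fin k → Idx kx k := fun z =>
    if z.1 = 0 then X[z.2.1]'(by rw [hX]; exact z.2.2) else Y[z.2.1]'(by rw [hY]; exact z.2.2)
  have hx0 : (List.finRange k).map (fun y => x (0, y)) = X := by
    apply List.ext_getElem
    · simp [hX]
    · intro i h1 h2
      simp [x]
  have hx1 : (List.finRange k).map (fun y => x (1, y)) = Y := by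
    apply List.ext_getElem
    · simp [hY]
    · intro i h1 h2
      simp [x]
  have key : ∀ (u : Fin 2 × Fin k → Idx kx k) (t s : Equiv.Perm (Fin k)),
      T ((List.finRange k).map (fun y => u (0, y)) ++ (List.finRange k).map fun y => u (1, y)) =
        T (prt 0 0 ((List.finRange k).map t) ++ prt 1 0 ((List.finRange k).map s)) →
      EqT T u (RR kx 1 ![t, s]) := by
    intro u t s h
    refine eqT_of hF (alls k (List.finRange 2)) (mem_alls fun p => List.mem_finRange p) ?_
    rw [alls_two, alls_two, h]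
    congr 1
    simp [prt, RR, Function.comp_def]
  have e1 := key x ta tb (by rw [hx0, hx1]; exact h3)
  have e2 := key (x ∘ WW (Equiv.swap 0 1) 1) ta' tb' (by
    have s0 : (fun y => (x ∘ WW (Equiv.swap 0 1) 1) ((0 : Fin 2), y)) = fun y => x (1, y) := by
      funext y
      simp [WW]
    have s1 : (fun y => (x ∘ WW (Equiv.swap 0 1) 1) ((1 : Fin 2), y)) = fun y => x (0, y) := by
      funext y
      simp [WW]
    rw [s0, s1, hx0, hx1]
    exact h4)
  have e3 := (e1.comp (WW (Equiv.swap 0 1) 1)).symm.trans e2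
  rw [RR_comp] at e3
  obtain ⟨τ, hτ⟩ := RR_div e3
  have hall : ∀ ρ : Equiv.Perm (Fin 2), ∃ τ', EqT T (RR kx ρ τ') (RR kx 1 1) := by
    intro ρ
    have h2 : ρ = 1 ∨ ρ = Equiv.swap 0 1 := by
      revert ρ
      decide
    rcases h2 with rfl | rfl
    · exact ⟨1, EqT.refl _⟩
    · refine ⟨τ, ?_⟩
      simpa using hτ
  have h5 := grp_all hG hP hF hL hall [1, 0] (by
    have : List.range 2 = [0, 1] := rfl
    rw [this]
    exact List.Perm.swap _ _ _)
  apply hne
  have e4 : (rws [1, 0] : List (Idx kx k)) = row 1 0 ++ row 0 0 := by simp [rws]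
  have e5 : (rws (List.range 2) : List (Idx kx k)) = row 0 0 ++ row 1 0 := by
    have : List.range 2 = [0, 1] := rfl
    rw [this]
    simp [rws]
  rw [← e4, ← e5]
  exact h5

end Pool.Agent.H71.FK
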