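import Pool.Agent.H16.FK.TargetsA

/-!
# Rows LKN and CRS
-/

set_option autoImplicit false

namespace Pool.Agent.H71.FK

open Set Pool.Agent.H75.HCI Pool.Agent.H16.FK

theorem pf_LKN (h : T_NLK) : T_LKN := by
  intro kx k L T hT hN
  by_contra hno
  obtain ⟨b, hb, he⟩ := h kx k L T hT [] hno
  exact hN b hb he

lemma TP_empty {kx k : ℕ} {L : Type} (T : List (Idx kx k) → L) (l : List (Idx kx k)) :
    TP T l [] = T l := by
  have hg : Good ([] : List (List (Fin k))) := fun a ha => by cases ha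
  unfold TP
  rw [if_pos hg]
  simp [frs]

theorem pf_CRS : T_CRS := by
  intro kx k L T cl B h
  refine ⟨h.sub, fun Cc D1 D2 hC h1 h2 hc => ?_⟩
  obtain ⟨f, hf, h3, h4⟩ := h.hom Cc D1 D2 hC h1 h2 hc
  refine ⟨f, ⟨hf.inj, fun l hl => ?_, hf.cls⟩, h3, h4⟩
  have := congrFun (hf.lab l hl) []
  rwa [TP_empty, TP_empty] at this

end Pool.Agent.H71.FK
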