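import Pool.Agent.H71.FK.UC

/-!
# U1: Theorem A* for ultrafilters
-/

set_option autoImplicit false

namespace Pool.Agent.H71.FK

open Set Filter Pool.Agent.H75.HCI Pool.Agent.H41.HI Pool.Agent.H71.HCI Pool.Agent.H16.FK

variable {C : Type} {M : List ℕ → C} {I J : Type}

lemma ev_exists {A B : Type} (V : Ultrafilter A) (F : Set B) (hF : F.Finite)
    (P : A → B → Prop) (h : ∀ᶠ x in (V : Filter A), ∃ y ∈ F, P x y) :
    ∃ y ∈ F, ∀ᶠ x in (V : Filter A), P x y := by
  classical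
  obtain ⟨x0, y0, _, _⟩ := h.exists
  let f : A → B := fun x => if hx : ∃ y ∈ F, P x y then hx.choose else y0
  have hfs : ∀ x, (∃ y ∈ F, P x y) → f x ∈ F ∧ P x (f x) := by
    intro x hx
    simp only [f, dif_pos hx]
    exact hx.choose_spec
  obtain ⟨y, hy, h2⟩ := exists_const V f F hF (h.mono fun x hx => (hfs x hx).1)
  refine ⟨y, hy, ?_⟩
  filter_upwards [h, h2] with x hx hxy
  rw [← hxy]
  exact (hfs x hx).2

/-- U1. -/
theorem pf_UAST (hTOPA : T_TOPA) (hAXD : T_AXD) (hREAL : T_REAL) (hSEPX : T_SEPX)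
    (hSPD : T_SPD) (hEV1 : T_EV1) (hEV3 : T_EV3) (hSSX : T_SSX) (hCSP : T_CSP)
    (hMXL : T_MXL) : T_UAST := by
  classical
  intro r C M har hf hs k hk UU V hPP hws
  have hmain : ∀ᶠ j in (UU : Filter ℕ), ∃ b, NC b ∧ SS M (V j) b := by
    by_contra hno
    have hno' : ∀ᶠ j in (UU : Filter ℕ), ∀ b, NC b → ¬ SS M (V j) b := by
      have := Ultrafilter.eventually_not.mpr hno
      filter_upwards [this] with j hj b hb hss
      exact hj ⟨b, hb, hss⟩
    obtain ⟨Bd, hBd⟩ := hSSX C r k M hf har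
    obtain ⟨⟨m, mu⟩, -, hgood⟩ := ev_exists UU
      {p : ℕ × ℕ | p ∈ Finset.range (Bd + 1) ×ˢ Finset.range (Bd + 1)} (Finset.finite_toSet _)
      (fun j p => ∃ c : Fin p.1 → ℕ, Function.Injective c ∧
        ∃ U : Ultrafilter (Fin p.2 → ℕ), NP U ∧ Ij U ∧ ∀ b, NC b →
          ∃ l : List (Fin p.1 ⊕ (Fin k ⊕ Fin p.2)),
            typ M (prU (V j) U) (l.map (Sum.map c id)) ≠
              typ M (prU (mixU (V j) b) U) (l.map (Sum.map c id))) (by
        filter_upwards [hno'] with j hj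
        obtain ⟨m, hm, mu, hmu, c, hc, U, hU1, hU2, h⟩ := hBd (V j) (hPP.np j) hj
        exact ⟨(m, mu), by simp; omega, c, hc, U, hU1, hU2, h⟩)
    simp only at hgood
    have hch : ∀ j, ∃ (c : Fin m → ℕ) (U : Ultrafilter (Fin mu → ℕ)),
        (∃ c : Fin m → ℕ, Function.Injective c ∧
          ∃ U : Ultrafilter (Fin mu → ℕ), NP U ∧ Ij U ∧ ∀ b, NC b →
            ∃ l : List (Fin m ⊕ (Fin k ⊕ Fin mu)),
              typ M (prU (V j) U) (l.map (Sum.map c id)) ≠
                typ M (prU (mixU (V j) b) U) (l.map (Sum.map c id))) →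
        NP U ∧ Ij U ∧ ∀ b, NC b →
          ∃ l : List (Fin m ⊕ (Fin k ⊕ Fin mu)),
            typ M (prU (V j) U) (l.map (Sum.map c id)) ≠
              typ M (prU (mixU (V j) b) U) (l.map (Sum.map c id)) := by
      intro j
      by_cases h : ∃ c : Fin m → ℕ, Function.Injective c ∧
          ∃ U : Ultrafilter (Fin mu → ℕ), NP U ∧ Ij U ∧ ∀ b, NC b →
            ∃ l : List (Fin m ⊕ (Fin k ⊕ Fin mu)),
              typ M (prU (V j) U) (l.map (Sum.map c id)) ≠
                typ M (prU (mixU (V j) b) U) (l.map (Sum.map c id))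
      · obtain ⟨c, _, U, h1, h2, h3⟩ := h
        exact ⟨c, U, fun _ => ⟨h1, h2, h3⟩⟩
      · exact ⟨fun _ => 0, pure fun _ => 0, fun h' => absurd h' h⟩
    choose c U hcU using hch
    obtain ⟨kc, c', z0, hc1, hc2, hc3⟩ := exists_cst hCSP UU c
    let D0 : Dat kc mu k := ⟨[], UU, c', V, U⟩
    have hD0 : D0.OK := by
      refine ⟨ge_of_nu hPP.nu, hc1, hc2, Eventually.of_forall fun j => ⟨hPP.ij j, hPP.np j⟩, ?_⟩
      filter_upwards [hgood] with j hj
      exact ⟨(hcU j hj).2.1, (hcU j hj).1⟩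
    obtain ⟨z1, hz1⟩ := exists_ax hAXD hREAL hSEPX har hf hs hk D0 hD0 (pp_of hPP)
    obtain ⟨hOK, hAX, hLA, hCo⟩ := hz1 (z0 ++ z1) (fun a ha => by simp [ha])
    obtain ⟨b0, hb0, hb1⟩ := (wsplit_iff _).mp hws
    have hSPL : SPL (TD M (D0.mk' (z0 ++ z1))) := hSPD C kc mu k M (D0.mk' (z0 ++ z1)) hf hOK
      (pp_of hPP) b0 hb0 hb1
    obtain ⟨b, hb, hT⟩ := hTOPA (kc + mu) k (List ℕ → C) (TD M (D0.mk' (z0 ++ z1))) hAX hk hCo
      hSPL
    obtain ⟨l, -, hl⟩ := ev_exists UU {l : List (Fin m ⊕ (Fin k ⊕ Fin mu)) | l.length ≤ r}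
      (List.finite_length_le _ r)
      (fun j l => typ M (prU (V j) (U j)) (l.map (Sum.map (c j) id)) ≠
        typ M (prU (mixU (V j) b) (U j)) (l.map (Sum.map (c j) id))) (by
        filter_upwards [hgood] with j hj
        obtain ⟨l, hl⟩ := (hcU j hj).2.2 b hb
        refine ⟨l, ?_, hl⟩
        by_contra hlen
        exact hl (typ_long har (by rw [List.length_map]; simpa using hlen) _ _))
    obtain ⟨w, hw⟩ := exists_w (D0.mk' (z0 ++ z1)) c (by
        intro i
        rcases hc3 i with ⟨b, hb⟩ | ⟨a, ha, hj⟩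
        · exact Or.inl ⟨b, hb⟩
        · exact Or.inr ⟨a, by simp [Dat.mk', ha], hj⟩)
      (l.map (Sum.map Sum.inr id)) (by
        intro a ha
        obtain ⟨x, hx, hxa⟩ := List.mem_map.mp ha
        rcases x with i | t
        · simp at hxa
        · simp at hxa)
    obtain ⟨j, h1, h2, h3, h4⟩ := (hl.and (hw.and ((hEV1 C kc mu k M (D0.mk' (z0 ++ z1)) hf w).and
      (hEV3 C kc mu k M (D0.mk' (z0 ++ z1)) hf b w)))).exists
    apply h1
    have e3 : l.map (Sum.map (c j) (id : Fin k ⊕ Fin mu → Fin k ⊕ Fin mu)) =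
        cv1 (D0.mk' (z0 ++ z1)) j w := by
      rw [h2, List.map_map]
      apply List.map_congr_left
      rintro (i | t) _ <;> rfl
    rw [e3]
    refine (Eq.trans h3 ?_).trans h4.symm
    rw [hT]
  have hfin : ∀ᶠ j in (UU : Filter ℕ), ∀ b : Fin k → Bool, NC b → Tame M (mixU (V j) b) := by
    refine Filter.eventually_all.mpr fun b => ?_
    by_cases hb : NC b
    · filter_upwards [(hMXL C k M UU V hf (Eventually.of_forall hPP.np) (pp_of hPP) b hb).2]
        with j hj _
      exact hj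
    · exact Eventually.of_forall fun j h => absurd h hb
  filter_upwards [hmain, hfin] with j hj h2
  obtain ⟨b, hb, hss⟩ := hj
  have ht := h2 b hb
  have h0 : typ M (V j) = typ M (mixU (V j) b) := by
    have h := hss Empty (pure fun i => i.elim) (fun i => i.elim)
    have e : ∀ W : Ultrafilter (Fin k → ℕ),
        W = re (prU W (pure fun i : Empty => (i.elim : ℕ))) Sum.inl := by
      intro W
      refine uf_ext fun p => ?_
      rw [ev_re, ev_prU]
      refine Filter.eventually_congr (Eventually.of_forall fun x => ?_)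
      rw [Ultrafilter.coe_pure, Filter.eventually_pure]
      rw [show Sum.elim x (fun i : Empty => (i.elim : ℕ)) ∘ Sum.inl = x from rfl]
    exact (congrArg (typ M) (e (V j))).trans ((typ_re_congr hf h _).trans
      (congrArg (typ M) (e (mixU (V j) b))).symm)
  refine ⟨?_, (wsplit_iff _).mpr ⟨b, hb, h0⟩⟩
  intro J _ U hU
  rw [hss J U hU, ht J U hU]
  exact typ_re_congr hf (typ_prU_right hf U h0.symm) _

end Pool.Agent.H71.FK
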