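import Pool.Agent.H18.FK.AST
import Pool.Agent.H19.FKI.CLE
import Pool.Agent.H19.FKI.EV1
import Pool.Agent.H19.FKI.EV2
import Pool.Agent.H19.FKI.EV3
import Pool.Agent.H19.FKI.NSP
import Pool.Agent.H19.FKI.RA2
import Pool.Agent.H19.FKI.SPT
import Pool.Agent.H19.FKI.TOPB
import Pool.Agent.H20.FK.RB1
import Pool.Agent.H20.FK.RB3
import Pool.Agent.H23.FK.CSP
import Pool.Agent.H26.FK.LKI
import Pool.Agent.H32.FK.DIS
import Pool.Agent.H39.FK.AXD
import Pool.Agent.H39.FK.TPW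
import Pool.Agent.H40.FK.FPX
import Pool.Agent.H40.FK.TWI
import Pool.Agent.H41.FKI.AT
import Pool.Agent.H41.FKI.RunB
import Pool.Agent.H41.FKI.REAL
import Pool.Agent.H42.FK.SEPX
import Pool.Agent.H48.FKI.TDP
import Pool.Agent.H50.FK.RA4
import Pool.Agent.H50.FK.RB2
import Pool.Agent.H61.FK.FST
import Pool.Agent.H69.FK.HBL
import Pool.Agent.H69.FK.TOPA
import Pool.Agent.H72.FK.COM
import Pool.Agent.H74.FK.LR
import Pool.Agent.H74.FK.S2B
import Pool.Agent.H75.FK.RA1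
import Pool.Agent.H75.FK.RA5
import Pool.Agent.H75.FK.T4D
import Pool.Agent.H85.FK.S2A
import Pool.Agent.H85.FK.SFA
import Pool.Agent.H88.FK.TDV
import Pool.Agent.H88.FK.TOPC
import Pool.Agent.H91.FKI.GRP
import Pool.Agent.H91.FKI.NLK
import Pool.Agent.H91.FKI.T3D
import Pool.Agent.H93.FK.TPX
import Pool.Agent.H96.FK.SPD
import Pool.Agent.H14.FKI.NSD
import Pool.Agent.H17.FK.MXL
import Pool.Agent.H75.FK.SSX
import Pool.Agent.H71.FK.UAST
import Pool.Agent.H71.FK.USYM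
import Pool.Agent.H71.FK.Small
import Pool.Agent.H71.FK.S2G
import Pool.Agent.H76.HI.SD
import Pool.Agent.H71.HCI.QB
import Pool.Agent.H41.S5.Bridge

/-!
# Assembly of the rows
-/

set_option autoImplicit false

namespace Pool.Agent.H71.FK.Asm

open Set Pool.Agent.H75.HCI Pool.Agent.H41.HI Pool.Agent.H71.HCI Pool.Agent.H16.FK

/-! ## Array level -/

theorem tpw : T_TPW := Pool.Agent.H39.FK.pf_TPW
theorem tpx : T_TPX := Pool.Agent.H93.FK.pf_TPX tpw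
theorem lr : T_LR := Pool.Agent.H74.FK.pf_LR tpw tpx
theorem com : T_COM := Pool.Agent.H72.FK.pf_COM
theorem lki : T_LKI := Pool.Agent.H26.FK.pf_LKI
theorem ra1 : T_RA1 := Pool.Agent.H75.FK.pf_RA1 com lki
theorem ra2 : T_RA2 := Pool.Agent.H19.FKI.pf_RA2 ra1
theorem ra3 : T_RA3 := Pool.Agent.H75.FK.pf_RA3 ra1 ra2
theorem ra4 : T_RA4 := Pool.Agent.H50.FK.pf_RA4
theorem ra5 : T_RA5 := Pool.Agent.H75.FK.pf_RA5 ra1 ra3 ra4 ra2
theorem rb1 : T_RB1 := Pool.Agent.H20.FK.pf_RB1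
theorem rb2 : T_RB2 := Pool.Agent.H50.FK.pf_RB2 rb1
theorem rb3 : T_RB3 := Pool.Agent.H20.FK.pf_RB3 rb2
theorem cle : T_CLE := Pool.Agent.H19.FKI.pf_CLE
theorem tat : T_AT := Pool.Agent.H41.FKI.pf_AT
theorem sfa : T_SFA := Pool.Agent.H85.FK.pf_SFA
theorem ast : T_AST := Pool.Agent.H18.FK.pf_AST ra5 tat sfa lki
theorem nsp : T_NSP := Pool.Agent.H19.FKI.pf_NSP cle rb3 tat
theorem twi : T_TWI := Pool.Agent.H40.FK.pf_TWI
theorem grp : T_GRP := Pool.Agent.H91.FKI.pf_GRP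
theorem s2a : T_S2A := Pool.Agent.H85.FK.pf_S2A
theorem s2b : T_S2B := Pool.Agent.H74.FK.pf_S2B
theorem s3 : T_S3 := Pool.Agent.H71.FK.pf_S3 twi grp
theorem fpx : T_FPX := Pool.Agent.H40.FK.pf_FPX
theorem nlk : T_NLK := Pool.Agent.H91.FKI.pf_NLK tpw fpx
theorem fst : T_FST := Pool.Agent.H61.FK.pf_FST tpw
theorem spt : T_SPT := Pool.Agent.H19.FKI.pf_SPT tpw
theorem hbl : T_HBL := Pool.Agent.H69.FK.pf_HBL tpw
theorem topa : T_TOPA := Pool.Agent.H69.FK.pf_TOPA tpx lr ast spt nlk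

theorem lkn : T_LKN := Pool.Agent.H71.FK.pf_LKN nlk
theorem crs : T_CRS := Pool.Agent.H71.FK.pf_CRS
theorem s2g : T_S2G := Pool.Agent.H71.FK.pf_S2G grp
theorem topb : T_TOPB := Pool.Agent.H19.FKI.pf_TOPB tpx lr nsp fst lkn
theorem topc : T_TOPC := Pool.Agent.H88.FK.pf_TOPC tpx lr rb3 lkn hbl crs

/-! ## Arrays from ultrafilters -/

theorem dis : T_DIS := Pool.Agent.H32.FK.pf_DIS
theorem tdv : T_TDV := Pool.Agent.H88.FK.pf_TDV dis
theorem tdp : T_TDP := Pool.Agent.H48.FKI.pf_TDP dis tdv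
theorem t3d : T_T3D := Pool.Agent.H91.FKI.pf_T3D dis tdv tdp
theorem t4d : T_T4D := Pool.Agent.H75.FK.pf_T4D dis tdv tdp t3d
theorem axd : T_AXD := Pool.Agent.H39.FK.pf_AXD tdp t3d t4d
theorem sepx : T_SEPX := Pool.Agent.H42.FK.pf_SEPX dis tdv tdp
theorem ev1 : T_EV1 := Pool.Agent.H19.FKI.pf_EV1 tdv
theorem ev2 : T_EV2 := Pool.Agent.H19.FKI.pf_EV2 tdv
theorem ev3 : T_EV3 := Pool.Agent.H19.FKI.pf_EV3 tdv
theorem fsd : T_FSD := Pool.Agent.H41.FKI.pf_FSD tdv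
theorem bld : T_BLD := Pool.Agent.H41.FKI.pf_BLD tdv
theorem csp : T_CSP := Pool.Agent.H23.FK.pf_CSP
theorem mxl : T_MXL := Pool.Agent.H17.FK.pf_MXL
theorem nsd : T_NSD := Pool.Agent.H14.FKI.pf_NSD mxl tdv
theorem spd : T_SPD := Pool.Agent.H96.FK.pf_SPD mxl tdv
theorem ssx : T_SSX := Pool.Agent.H75.FK.pf_SSX

theorem real : T_REAL := Pool.Agent.H41.FKI.pf_REAL dis tdv tdp
theorem uast : T_UAST := pf_UAST topa axd real sepx spd ev1 ev3 ssx csp mxl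
theorem uthc : T_UTHC := pf_UTHC topb axd real sepx nsd fsd ev1 ev2 csp
theorem usym : T_USYM := pf_USYM topc grp axd real sepx nsd bld tdv

/-! ## Symmetry, the induction and STAR -/

theorem pb : Pool.Agent.H76.HI.PB := ⟨tdv, tdp, real, sepx, axd, nsd, fsd, bld, ev1, ev2⟩
theorem pt : Pool.Agent.H76.HI.PT := ⟨topc, s2a, s2b, s2g, s3⟩
theorem symq : T_SYMQ := Pool.Agent.H76.HI.symq pb pt uast
theorem qall' : T_QALL := qall uast uthc usym symq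

/-- STAR: a structure of bounded arity with few substructures has no system. -/
theorem star (r : ℕ) : T_STAR r := Pool.Agent.H41.S5.star_of_qall qall' r

end Pool.Agent.H71.FK.Asm
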