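import Pool.Agent.H16.FK.TargetsA

/-!
# Families of points of an array with the same labels
-/

set_option autoImplicit false

namespace Pool.Agent.H71.FK

open Set Pool.Agent.H75.HCI Pool.Agent.H16.FK

variable {kx k : ℕ} {L : Type} {T : List (Idx kx k) → L} {ι κ : Type}

/-- Two families of points have the same labels. -/
def EqT (T : List (Idx kx k) → L) (x x' : ι → Idx kx k) : Prop :=
  ∀ w : List ι, T (w.map x) = T (w.map x')

lemma EqT.refl (x : ι → Idx kx k) : EqT T x x := fun _ => rfl

lemma EqT.symm {x x' : ι → Idx kx k} (h : EqT T x x') : EqT T x' x := fun w => (h w).symm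

lemma EqT.trans {x x' x'' : ι → Idx kx k} (h : EqT T x x') (h' : EqT T x' x'') : EqT T x x'' :=
  fun w => (h w).trans (h' w)

lemma EqT.comp {x x' : ι → Idx kx k} (h : EqT T x x') (f : κ → ι) :
    EqT T (x ∘ f) (x' ∘ f) := fun w => by
  rw [← List.map_map, ← List.map_map]; exact h _

lemma eqT_of (hF : FTx T) {x x' : ι → Idx kx k} (l : List ι) (hl : ∀ i, i ∈ l)
    (h : T (l.map x) = T (l.map x')) : EqT T x x' := by
  classical
  intro w
  have key : ∀ y : ι → Idx kx k, sel (l.map y) (w.map (l.idxOf ·)) = w.map y := by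
    intro y
    rw [sel_map]
    congr 1
    unfold sel
    rw [List.filterMap_map]
    have : ∀ v : List ι, List.filterMap ((fun i => l[i]?) ∘ fun a => l.idxOf a) v = v := by
      intro v
      induction v with
      | nil => rfl
      | cons a v ih =>
        have ha : l[l.idxOf a]? = some a := by
          rw [List.getElem?_eq_getElem (List.idxOf_lt_length_of_mem (hl a))]
          simp
        rw [List.filterMap_cons_some (b := a) (by simpa using ha), ih]
    exact this w
  rw [← key x, ← key x']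
  exact hF _ _ _ (by simp) h

lemma pat_ren (hP : PatInv T) (φ : ℕ → ℕ) (l : List (Idx kx k))
    (hφ : ∀ p ∈ l, ∀ p' ∈ l, (φ p.1 < φ p'.1 ↔ p.1 < p'.1)) :
    T (l.map fun p => (φ p.1, p.2)) = T l := by
  refine hP (fun p => (φ p.1, p.2)) {p | p ∈ l} ⟨fun p _ => rfl, fun p hp q hq => hφ p hp q hq, ?_⟩
    l (fun x hx => hx)
  intro p _ q _ _ u u' v v' h1 h2 h3 h4
  have e1 : u = u' := by
    have : (Sum.inr u : Fin kx ⊕ ℕ × Fin k) = .inr u' := h1.symm.trans h3
    exact Sum.inr.inj this
  have e2 : v = v' := by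
    have : (Sum.inr v : Fin kx ⊕ ℕ × Fin k) = .inr v' := h2.symm.trans h4
    exact Sum.inr.inj this
  rw [e1, e2]

lemma compr {P : Type} (hP : PatInv T) (J J' : P → ℕ) (hJ : Function.Injective J)
    (h : ∀ p p', J' p < J' p' ↔ J p < J p') (τ : P → Fin k → Fin k) :
    EqT T (fun z : P × Fin k => (J z.1, .inr (0, τ z.1 z.2)))
      (fun z : P × Fin k => (J' z.1, .inr (0, τ z.1 z.2))) := by
  intro w
  have h1 := pat_ren hP (Function.extend J J' fun _ => 0)
    (w.map fun z : P × Fin k => ((J z.1, .inr (0, τ z.1 z.2)) : Idx kx k)) (by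
      intro p hp p' hp'
      obtain ⟨z, _, rfl⟩ := List.mem_map.mp hp
      obtain ⟨z', _, rfl⟩ := List.mem_map.mp hp'
      simp only [hJ.extend_apply]
      exact h _ _)
  rw [← h1, List.map_map]
  congr 1
  apply List.map_congr_left
  intro z _
  simp [hJ.extend_apply]

/-- All rows have the same types. -/
lemma prt_00 (hP : PatInv T) (i m : ℕ) (a : List (Fin k)) : T (prt i m a) = T (prt 0 0 a) := by
  have h := hP (fun p => (i, p.2.elim .inl fun q => .inr (m, q.2))) {p | p ∈ prt 0 0 a}
    ⟨?_, ?_, ?_⟩ (prt 0 0 a) (fun _ h => h)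
  · rw [← h]
    congr 1
    simp [prt]
  · intro p hp
    obtain ⟨y, _, rfl⟩ := List.mem_map.mp hp
    rfl
  · intro p hp q hq
    obtain ⟨y, _, rfl⟩ := List.mem_map.mp hp
    obtain ⟨y', _, rfl⟩ := List.mem_map.mp hq
    simp
  · intro p hp q hq _ u u' v v' h1 h2 h3 h4
    obtain ⟨y, _, rfl⟩ := List.mem_map.mp hp
    obtain ⟨y', _, rfl⟩ := List.mem_map.mp hq
    have e1 : u.1 = 0 := by
      have := Sum.inr.inj h1; rw [← this]
    have e2 : v.1 = 0 := by
      have := Sum.inr.inj h2; rw [← this]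
    have e3 : u'.1 = m := by
      have := Sum.inr.inj h3; rw [← this]
    have e4 : v'.1 = m := by
      have := Sum.inr.inj h4; rw [← this]
    rw [e1, e2, e3, e4]
    simp

/-- All indices of the rows in `ps`. -/
def alls {P : Type} (k : ℕ) (ps : List P) : List (P × Fin k) :=
  (ps.map fun p => (List.finRange k).map fun y => (p, y)).flatten

lemma mem_alls {P : Type} {ps : List P} (h : ∀ p, p ∈ ps) (z : P × Fin k) : z ∈ alls k ps := by
  unfold alls
  rw [List.mem_flatten]
  exact ⟨_, List.mem_map.mpr ⟨z.1, h _, rfl⟩, List.mem_map.mpr ⟨z.2, List.mem_finRange _, rfl⟩⟩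

lemma trw_eq {P : Type} (ps : List P) (js : P → ℕ) (τ : P → Fin k → Fin k) :
    trw (kx := kx) (ps.map js) (ps.map fun p => (List.finRange k).map (τ p)) =
      (alls k ps).map (fun z : P × Fin k => ((js z.1, .inr (0, τ z.1 z.2)) : Idx kx k)) := by
  unfold trw prt alls
  rw [List.map_flatten, List.map_map]
  congr 1
  induction ps with
  | nil => rfl
  | cons p ps ih =>
    simp only [List.map_cons, List.zipWith_cons_cons, Function.comp]
    rw [ih]
    simp [Function.comp_def]

lemma twi' (h1 : T_TWI) {q : ℕ} (hP : PatInv T) (hF : FTx T) (hL : LAST T) (hS : FarS T q)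
    {κ P : Type} [Finite κ] [Finite P] (hc : Nat.card P ≤ q) (n : ℕ) (O : κ → Idx kx k)
    (hO : ∀ c, (O c).1 < n) (js js' : P → ℕ) (hj : Function.Injective js)
    (hj' : Function.Injective js') (hn : ∀ p, n ≤ js p) (hn' : ∀ p, n ≤ js' p)
    (τ τ' : P → Fin k → Fin k) (ht : ∀ p, Tw T ((List.finRange k).map (τ p)))
    (ht' : ∀ p, Tw T ((List.finRange k).map (τ' p))) :
    EqT T (Sum.elim O fun z : P × Fin k => (js z.1, .inr (0, τ z.1 z.2)))
      (Sum.elim O fun z : P × Fin k => (js' z.1, .inr (0, τ' z.1 z.2))) := by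
  classical
  haveI := Fintype.ofFinite κ
  haveI := Fintype.ofFinite P
  let ps : List P := Finset.univ.toList
  let cs : List κ := Finset.univ.toList
  have hps : ps.length = Nat.card P := by
    simp [ps, Nat.card_eq_fintype_card]
  have hpn : ps.Nodup := Finset.nodup_toList _
  have key : ∀ (j : P → ℕ) (t : P → Fin k → Fin k), Function.Injective j → (∀ p, n ≤ j p) →
      (∀ p, Tw T ((List.finRange k).map (t p))) →
      T ((cs.map Sum.inl ++ (alls k ps).map Sum.inr).map
        (Sum.elim O fun z : P × Fin k => (j z.1, .inr (0, t z.1 z.2)))) =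
      T (cs.map O ++ rws (List.range' n ps.length)) := by
    intro j t hj hn ht
    have h := h1 kx k L T q hP hF hL hS n (cs.map O) (List.range' n ps.length) (ps.map j)
      (ps.map fun p => (List.finRange k).map (t p)) ?_ ?_ ?_ ?_ ?_ ?_ ?_ ?_ ?_
    · rw [← h, trw_eq]
      congr 1
      rw [List.map_append, List.map_map, List.map_map]
      rfl
    · intro p hp
      obtain ⟨c, _, rfl⟩ := List.mem_map.mp hp
      exact hO c
    · exact List.pairwise_lt_range'
    · intro i hi
      simp only [List.mem_range'_1] at hi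
      exact hi.1
    · rw [List.length_range', hps]; exact hc
    · exact hpn.map hj
    · intro i hi
      obtain ⟨p, _, rfl⟩ := List.mem_map.mp hi
      exact hn p
    · simp
    · simp
    · intro a ha
      obtain ⟨p, _, rfl⟩ := List.mem_map.mp ha
      exact ht p
  refine eqT_of hF (cs.map Sum.inl ++ (alls k ps).map Sum.inr) ?_ ?_
  · rintro (c | z)
    · exact List.mem_append_left _ (List.mem_map.mpr ⟨c, by simp [cs], rfl⟩)
    · exact List.mem_append_right _ (List.mem_map.mpr ⟨z, mem_alls (fun p => by simp [ps]) z, rfl⟩)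
  · rw [key js τ hj hn ht, key js' τ' hj' hn' ht']

lemma iso' {cl : Fin kx → Fin kx} {In : Set (Fin kx)} (hk : 1 ≤ k) (hP : PatInv T)
    (hSP : SPart T (ec cl) univ (BP In)) {κ P : Type} [Finite κ] [Finite P]
    (O : κ → Idx kx k) (hO : ∀ c, ec cl (O c) ∉ BP In)
    (x : P × Fin k → Idx kx k) (hx : Function.Injective x)
    (E : P → ℕ × (Fin kx ⊕ ℕ)) (hE : Function.Injective E) (hEI : ∀ p, E p ∈ BP In)
    (hxE : ∀ z, ec cl (x z) = E z.1)
    (hT : ∀ p, T ((List.finRange k).map fun y => x (p, y)) = T (row 0 0))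
    (js : P → ℕ) (hj : Function.Injective js) :
    ∃ (σ : Equiv.Perm P) (τ : P → Equiv.Perm (Fin k)),
      (∀ p, Tw T ((List.finRange k).map (τ p))) ∧
      EqT T (Sum.elim O x)
        (Sum.elim O fun z : P × Fin k => (js (σ z.1), .inr (0, τ z.1 z.2))) := by
  classical
  haveI := Fintype.ofFinite κ
  haveI := Fintype.ofFinite P
  obtain ⟨f, hf1, hf2, hf3⟩ := hSP.hom (Finset.univ.image fun c => ec cl (O c))
    (Finset.univ.image E) (Finset.univ.image fun p => ((js p, .inr 0) : ℕ × (Fin kx ⊕ ℕ)))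
    (by
      intro c hc
      obtain ⟨c', _, rfl⟩ := Finset.mem_image.mp hc
      exact hO c')
    (by
      intro c hc
      obtain ⟨c', _, rfl⟩ := Finset.mem_image.mp hc
      exact hEI c')
    (by
      intro c hc
      obtain ⟨c', _, rfl⟩ := Finset.mem_image.mp hc
      intro β hβ
      cases hβ)
    (by
      rw [Finset.card_image_of_injective _ hE, Finset.card_image_of_injective]
      intro p p' h
      exact hj (Prod.mk.inj h).1)
  have hxm : ∀ z, x z ∈ Pt (ec cl) univ
      (((Finset.univ.image E : Finset _) : Set (ℕ × (Fin kx ⊕ ℕ)))) := by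
    intro z
    refine ⟨mem_univ _, ?_⟩
    rw [hxE]
    simp
  have hxm' : ∀ z, x z ∈ Pt (ec cl) univ
      (((Finset.univ.image fun c => ec cl (O c) : Finset _) : Set (ℕ × (Fin kx ⊕ ℕ))) ∪
        ((Finset.univ.image E : Finset _) : Set (ℕ × (Fin kx ⊕ ℕ)))) := by
    intro z
    exact ⟨mem_univ _, Or.inr (hxm z).2⟩
  have hOm : ∀ c, O c ∈ Pt (ec cl) univ
      (((Finset.univ.image fun c => ec cl (O c) : Finset _) : Set (ℕ × (Fin kx ⊕ ℕ)))) := by
    intro c
    refine ⟨mem_univ _, ?_⟩
    simp
  have hOm' : ∀ c, O c ∈ Pt (ec cl) univ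
      (((Finset.univ.image fun c => ec cl (O c) : Finset _) : Set (ℕ × (Fin kx ⊕ ℕ))) ∪
        ((Finset.univ.image E : Finset _) : Set (ℕ × (Fin kx ⊕ ℕ)))) := by
    intro z
    exact ⟨mem_univ _, Or.inl (hOm z).2⟩
  have hfx : ∀ z, ∃ (p : P) (y : Fin k), f (x z) = (js p, .inr (0, y)) := by
    intro z
    have h := mem_image_of_mem f (hxm z)
    rw [hf2] at h
    have h2 := h.2
    simp only [Finset.coe_image, Finset.coe_univ, image_univ, mem_range] at h2
    obtain ⟨p, hp⟩ := h2
    rcases hfz : f (x z) with ⟨i, (b | ⟨m, y⟩)⟩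
    · rw [hfz] at hp
      simp [ec] at hp
    · rw [hfz] at hp
      simp only [ec, Sum.elim_inr, Prod.mk.injEq, Sum.inr.injEq] at hp
      exact ⟨p, y, by rw [← hp.1, hp.2]⟩
  choose a b hab using hfx
  have y0 : Fin k := ⟨0, hk⟩
  have ha : ∀ (p : P) (y y' : Fin k), a (p, y) = a (p, y') := by
    intro p y y'
    have h := (hf1.cls (x (p, y)) (hxm' _) (x (p, y')) (hxm' _)).mpr (by rw [hxE, hxE])
    rw [hab, hab] at h
    simp only [ec, Sum.elim_inr, Prod.mk.injEq, and_true] at h
    exact hj h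
  have hinj : Function.Injective (fun p : P => a (p, y0)) := by
    intro p p' h
    simp only at h
    have h2 := (hf1.cls (x (p, y0)) (hxm' _) (x (p', y0)) (hxm' _)).mp (by
      rw [hab, hab, h]; rfl)
    rw [hxE, hxE] at h2
    exact hE h2
  let σ : Equiv.Perm P := Equiv.ofBijective _ (Finite.injective_iff_bijective.mp hinj)
  have hbinj : ∀ p : P, Function.Injective (fun y : Fin k => b (p, y)) := by
    intro p y y' h
    simp only at h
    have h2 : f (x (p, y)) = f (x (p, y')) := by
      rw [hab, hab, h, ha p y y']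
    have h3 := hf1.inj (hxm' (p, y)) (hxm' (p, y')) h2
    exact (Prod.mk.inj (hx h3)).2
  let τ : P → Equiv.Perm (Fin k) := fun p =>
    Equiv.ofBijective _ (Finite.injective_iff_bijective.mp (hbinj p))
  have hE : EqT T (Sum.elim O x)
        (Sum.elim O fun z : P × Fin k => (js (σ z.1), .inr (0, τ z.1 z.2))) := by
    intro w
    have h := hf1.lab (w.map (Sum.elim O x)) (by
      intro p hp
      obtain ⟨c | z, _, rfl⟩ := List.mem_map.mp hp
      · exact hOm' c
      · exact hxm' z)
    rw [← h, List.map_map]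
    congr 1
    apply List.map_congr_left
    rintro (c | ⟨p, y⟩) _
    · exact hf3 _ (hOm c)
    · simp only [Function.comp, Sum.elim_inr]
      rw [hab, ha p y y0]
      rfl
  refine ⟨σ, τ, ?_, hE⟩
  intro p
  refine ⟨(List.nodup_finRange k).map (τ p).injective, by simp, ?_⟩
  rw [← prt_00 hP (js (σ p)) 0]
  have h := hE ((List.finRange k).map fun y => Sum.inr (p, y))
  rw [List.map_map, List.map_map] at h
  rw [← hT p]
  simp only [prt, List.map_map]
  exact h.symm

end Pool.Agent.H71.FK
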