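import Pool.Agent.H71.FK.EqT

/-!
# Row S3: `q` hub cells, `q ≥ 2`
-/

set_option autoImplicit false

namespace Pool.Agent.H71.FK

open Set Pool.Agent.H75.HCI Pool.Agent.H16.FK

/-! ## Arrangements of the rows `0, ..., n - 1` -/

section RRs

variable {kx k n : ℕ} {L : Type} {T : List (Idx kx k) → L}

/-- The rows `σ 0, σ 1, ...` with the orders `τ`. -/
def RR (kx : ℕ) {k n : ℕ} (σ : Equiv.Perm (Fin n)) (τ : Fin n → Equiv.Perm (Fin k))
    (z : Fin n × Fin k) : Idx kx k := (((σ z.1 : Fin n) : ℕ), .inr (0, τ z.1 z.2))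

/-- Rearrangements. -/
def WW (σ : Equiv.Perm (Fin n)) (τ : Fin n → Equiv.Perm (Fin k)) (z : Fin n × Fin k) :
    Fin n × Fin k := (σ z.1, τ z.1 z.2)

lemma RR_comp (σ σ' : Equiv.Perm (Fin n)) (τ τ' : Fin n → Equiv.Perm (Fin k)) :
    RR kx σ τ ∘ WW σ' τ' = RR kx (σ * σ') (fun p => τ (σ' p) * τ' p) := rfl

lemma RR_mul {σ σ' : Equiv.Perm (Fin n)} {τ τ' : Fin n → Equiv.Perm (Fin k)}
    (h : EqT T (RR kx σ τ) (RR kx 1 1)) (h' : EqT T (RR kx σ' τ') (RR kx 1 1)) :
    EqT T (RR kx (σ * σ') (fun p => τ (σ' p) * τ' p)) (RR kx 1 1) := by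
  have h1 := h.comp (WW σ' τ')
  rw [RR_comp, RR_comp] at h1
  refine h1.trans ?_
  simpa using h'

lemma RR_div {σ σ' : Equiv.Perm (Fin n)} {τ τ' : Fin n → Equiv.Perm (Fin k)}
    (h : EqT T (RR kx σ τ) (RR kx σ' τ')) :
    ∃ τ'', EqT T (RR kx (σ * σ'⁻¹) τ'') (RR kx 1 1) := by
  have h1 := h.comp (WW σ'⁻¹ fun p => (τ' (σ'⁻¹ p))⁻¹)
  rw [RR_comp, RR_comp] at h1
  refine ⟨_, h1.trans ?_⟩
  have e1 : σ' * σ'⁻¹ = 1 := mul_inv_cancel _
  have e2 : (fun p => τ' (σ'⁻¹ p) * (τ' (σ'⁻¹ p))⁻¹) = (1 : Fin n → Equiv.Perm (Fin k)) := by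
    funext p
    simp
  rw [e1, e2]
  exact EqT.refl _

lemma RR_inv {σ : Equiv.Perm (Fin n)} {τ : Fin n → Equiv.Perm (Fin k)}
    (h : EqT T (RR kx σ τ) (RR kx 1 1)) : ∃ τ', EqT T (RR kx σ⁻¹ τ') (RR kx 1 1) := by
  obtain ⟨τ', h'⟩ := RR_div h.symm
  exact ⟨τ', by simpa using h'⟩

/-- The rows as lists. -/
lemma RR_list (σ : Equiv.Perm (Fin n)) (τ : Fin n → Equiv.Perm (Fin k)) :
    (alls k (List.finRange n)).map (RR kx σ τ) =
      trw ((List.finRange n).map fun i => ((σ i : Fin n) : ℕ))
        ((List.finRange n).map fun p => (List.finRange k).map (τ p)) := by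
  rw [trw_eq (List.finRange n) (fun i => ((σ i : Fin n) : ℕ)) (fun p => ⇑(τ p))]
  rfl

lemma rws_list (σ : Equiv.Perm (Fin n)) :
    (alls k (List.finRange n)).map (RR kx σ 1) =
      rws ((List.finRange n).map fun i => ((σ i : Fin n) : ℕ)) := by
  unfold alls rws row prt
  rw [List.map_flatten, List.map_map, List.map_map]
  congr 1
  apply List.map_congr_left
  intro p _
  simp [RR, Function.comp_def]

/-- A permutation which ranks the values. -/
lemma exists_rank (J : Fin n → ℕ) (hJ : Function.Injective J) :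
    ∃ σ : Equiv.Perm (Fin n), ∀ p p', σ p < σ p' ↔ J p < J p' := by
  have hm : StrictMono (J ∘ Tuple.sort J) :=
    (Tuple.monotone_sort J).strictMono_of_injective (hJ.comp (Tuple.sort J).injective)
  refine ⟨(Tuple.sort J)⁻¹, fun p p' => ?_⟩
  have h := hm.lt_iff_lt (a := (Tuple.sort J)⁻¹ p) (b := (Tuple.sort J)⁻¹ p')
  rw [← h]
  simp

end RRs

/-! ## Hub cells -/

lemma enum {kx k q : ℕ} (Js : List (List (Fin kx))) (hlen : Js.length = q)
    (hperm : Js.flatten.Perm (List.finRange kx)) (hJ : ∀ J ∈ Js, J.length = k) :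
    ∃ e : Fin q × Fin k → Fin kx, Function.Bijective e ∧
      (∀ j, (List.finRange k).map (fun y => e (j, y)) ∈ Js) ∧
      ∀ z z', (∃ J ∈ Js, e z ∈ J ∧ e z' ∈ J) ↔ z.1 = z'.1 := by
  subst hlen
  have hk : ∀ j : Fin Js.length, (Js[j]).length = k := fun j => hJ _ (List.getElem_mem _)
  have hnd : Js.flatten.Nodup := hperm.nodup_iff.mpr (List.nodup_finRange _)
  rw [List.nodup_flatten] at hnd
  obtain ⟨hn1, hn2⟩ := hnd
  let e : Fin Js.length × Fin k → Fin kx := fun z => (Js[z.1])[z.2.1]'(by rw [hk]; exact z.2.2)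
  have hmem : ∀ z, e z ∈ Js[z.1] := fun z => List.getElem_mem _
  have hdis : ∀ j j' : Fin Js.length, ∀ b, b ∈ Js[j] → b ∈ Js[j'] → j = j' := by
    intro j j' b hb hb'
    by_contra hne
    rw [List.pairwise_iff_getElem] at hn2
    rcases lt_or_gt_of_ne hne with h | h
    · exact hn2 j.1 j'.1 j.2 j'.2 h hb hb'
    · exact hn2 j'.1 j.1 j'.2 j.2 h hb' hb
  have hinj : Function.Injective e := by
    rintro ⟨j, y⟩ ⟨j', y'⟩ h
    have hj : j = j' := hdis j j' (e (j, y)) (hmem (j, y)) (by rw [h]; exact hmem (j', y'))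
    subst hj
    have hn := hn1 (Js[j]) (List.getElem_mem _)
    have h2 : y.1 = y'.1 := (hn.getElem_inj_iff).mp h
    rw [Fin.ext h2]
  refine ⟨e, ⟨hinj, ?_⟩, ?_, ?_⟩
  · intro b
    have hb : b ∈ Js.flatten := hperm.mem_iff.mpr (List.mem_finRange b)
    obtain ⟨J, hJ1, hJ2⟩ := List.mem_flatten.mp hb
    obtain ⟨j, hj, rfl⟩ := List.mem_iff_getElem.mp hJ1
    obtain ⟨y, hy, rfl⟩ := List.mem_iff_getElem.mp hJ2
    exact ⟨(⟨j, hj⟩, ⟨y, by rw [← hk ⟨j, hj⟩]; exact hy⟩), rfl⟩
  · intro j
    have : (List.finRange k).map (fun y => e (j, y)) = Js[j] := by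
      apply List.ext_getElem
      · rw [List.length_map, List.length_finRange]
        exact (hk j).symm
      · intro i h1 h2
        simp [e]
    rw [this]
    exact List.getElem_mem _
  · intro z z'
    constructor
    · rintro ⟨J, hJ1, hz, hz'⟩
      obtain ⟨j, hj, rfl⟩ := List.mem_iff_getElem.mp hJ1
      rw [hdis z.1 ⟨j, hj⟩ _ (hmem z) hz, hdis z'.1 ⟨j, hj⟩ _ (hmem z') hz']
    · obtain ⟨j, y⟩ := z
      obtain ⟨j', y'⟩ := z'
      intro h
      simp only at h
      subst h
      exact ⟨Js[j], List.getElem_mem _, hmem (j, y), hmem (j, y')⟩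

/-! ## The theorem -/

section Main

variable {kx k q : ℕ} {L : Type} {T : List (Idx kx k) → L}

lemma tw_one : Tw T ((List.finRange k).map ((1 : Equiv.Perm (Fin k)) : Fin k → Fin k)) := by
  have : (List.finRange k).map ((1 : Equiv.Perm (Fin k)) : Fin k → Fin k) = List.finRange k := by
    simp
  rw [this]
  exact ⟨List.nodup_finRange k, by simp, rfl⟩

/-- The stabilizer of the first row. -/
lemma stab0 (h1 : T_TWI) (hP : PatInv T) (hF : FTx T) (hL : LAST T) (hS : FarS T q)
    (σ : Equiv.Perm (Fin (q + 1))) (h0 : σ 0 = 0) (τ : Fin (q + 1) → Equiv.Perm (Fin k))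
    (ht0 : τ 0 = 1) (ht : ∀ p, Tw T ((List.finRange k).map (τ p))) :
    EqT T (RR kx σ τ) (RR kx 1 1) := by
  have hne : ∀ p : Fin q, σ p.succ ≠ 0 := by
    intro p h
    rw [← h0] at h
    exact Fin.succ_ne_zero p (σ.injective h)
  have h := twi' h1 hP hF hL hS (κ := Fin k) (P := Fin q) (by simp) 1
    (fun y => ((0, .inr (0, y)) : Idx kx k)) (fun _ => Nat.zero_lt_one)
    (fun p => ((σ p.succ : Fin (q + 1)) : ℕ)) (fun p => (p : ℕ) + 1)
    (fun p p' h => by
      have h2 := σ.injective (Fin.ext h)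
      exact Fin.succ_injective _ h2)
    (fun p p' h => by
      simp only [Nat.add_right_cancel_iff] at h
      exact Fin.ext h)
    (fun p => Nat.one_le_iff_ne_zero.mpr fun h => hne p (Fin.ext h)) (fun p => by simp)
    (fun p => ⇑(τ p.succ)) (fun _ => ⇑(1 : Equiv.Perm (Fin k))) (fun p => ht _)
    (fun _ => tw_one)
  have h2 := h.comp (fun z : Fin (q + 1) × Fin k =>
    (Fin.cases (Sum.inl z.2) (fun p => Sum.inr (p, z.2)) z.1 : Fin k ⊕ (Fin q × Fin k)))
  refine EqT.trans (EqT.trans ?_ h2) ?_
  · intro w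
    congr 1
    apply List.map_congr_left
    rintro ⟨p, y⟩ _
    refine Fin.cases ?_ (fun p => ?_) p
    · simp [RR, h0, ht0]
    · simp [RR]
  · intro w
    congr 1
    apply List.map_congr_left
    rintro ⟨p, y⟩ _
    refine Fin.cases ?_ (fun p => ?_) p
    · simp [RR]
    · simp [RR]

/-- If some arrangement moves the first row then all arrangements are invisible. -/
lemma case2a (h1 : T_TWI) (h2 : T_GRP) (hq : 2 ≤ q) (hP : PatInv T) (hF : FTx T)
    (hL : LAST T) (hS : FarS T q) (σ0 : Equiv.Perm (Fin (q + 1)))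
    (τ0 : Fin (q + 1) → Equiv.Perm (Fin k)) (hG : EqT T (RR kx σ0 τ0) (RR kx 1 1))
    (hm : σ0 0 ≠ 0) (σ : Equiv.Perm (Fin (q + 1))) (τ : Fin (q + 1) → Equiv.Perm (Fin k))
    (ht : ∀ p, Tw T ((List.finRange k).map (τ p))) : EqT T (RR kx σ τ) (RR kx 1 1) := by
  -- all permutations are possible
  have hall : ∀ ρ : Equiv.Perm (Fin (q + 1)), ∃ τ', EqT T (RR kx ρ τ') (RR kx 1 1) := by
    intro ρ
    have hst : ∀ ρ : Equiv.Perm (Fin (q + 1)), ρ 0 = 0 →
        ∃ τ', EqT T (RR kx ρ τ') (RR kx 1 1) := fun ρ h =>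
      ⟨1, stab0 h1 hP hF hL hS ρ h 1 rfl fun _ => tw_one⟩
    by_cases h0 : ρ 0 = 0
    · exact hst ρ h0
    · obtain ⟨τ1, hτ1⟩ := hst (Equiv.swap (σ0 0) (ρ 0))
        (Equiv.swap_apply_of_ne_of_ne (Ne.symm hm) (Ne.symm h0))
      obtain ⟨τ2, hτ2⟩ := hst ((Equiv.swap (σ0 0) (ρ 0) * σ0)⁻¹ * ρ) (by
        rw [Equiv.Perm.mul_apply, Equiv.Perm.inv_eq_iff_eq, Equiv.Perm.mul_apply,
          Equiv.swap_apply_left])
      have h3 := RR_mul (RR_mul hτ1 hG) hτ2
      rw [mul_inv_cancel_left] at h3
      exact ⟨_, h3⟩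
  -- no twists are needed
  have hno : ∀ ρ : Equiv.Perm (Fin (q + 1)), EqT T (RR kx ρ 1) (RR kx 1 1) := by
    intro ρ
    have hr : ∀ ρ : Equiv.Perm (Fin (q + 1)),
        ((List.finRange (q + 1)).map fun i => ((ρ i : Fin (q + 1)) : ℕ)).Perm
          (List.range (q + 1)) := by
      intro ρ
      have e1 := (Equiv.Perm.map_finRange_perm ρ).map (fun i : Fin (q + 1) => (i : ℕ))
      rw [List.map_map] at e1
      have e2 : (List.finRange (q + 1)).map (fun i : Fin (q + 1) => (i : ℕ)) =
          List.range (q + 1) := by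
        simp
      rw [e2] at e1
      exact e1
    have e3 : (List.finRange (q + 1)).map
        (fun i => (((1 : Equiv.Perm (Fin (q + 1))) i : Fin (q + 1)) : ℕ)) =
          List.range (q + 1) := by
      simp
    have h := h2 kx k L T (q + 1) hP hF hL (by
      intro js' hjs
      have hl : js'.length = q + 1 := by rw [hjs.length_eq, List.length_range]
      have hn : js'.Nodup := hjs.nodup_iff.mpr List.nodup_range
      have hlt : ∀ i : Fin (q + 1), js'[i.1]'(by rw [hl]; exact i.2) < q + 1 := fun i =>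
        List.mem_range.mp (hjs.mem_iff.mp (List.getElem_mem _))
      let f : Fin (q + 1) → Fin (q + 1) := fun i => ⟨js'[i.1]'(by rw [hl]; exact i.2), hlt i⟩
      have hf : Function.Injective f := by
        intro i i' h
        exact Fin.ext ((hn.getElem_inj_iff).mp (Fin.mk.inj h))
      let ρ' : Equiv.Perm (Fin (q + 1)) :=
        Equiv.ofBijective f (Finite.injective_iff_bijective.mp hf)
      have hj : js' = (List.finRange (q + 1)).map fun i => ((ρ' i : Fin (q + 1)) : ℕ) := by
        apply List.ext_getElem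
        · simp [hl]
        · intro i h1 h2
          simp [ρ', f]
      obtain ⟨τ', hτ'⟩ := hall ρ'
      refine ⟨(List.finRange (q + 1)).map fun p => (List.finRange k).map (τ' p), by simp, ?_, ?_⟩
      · intro a ha
        obtain ⟨p, _, rfl⟩ := List.mem_map.mp ha
        exact ⟨(List.nodup_finRange k).map (τ' p).injective, by simp⟩
      · rw [hj, ← RR_list, hτ' _, rws_list, e3]) _ (hr ρ)
    refine eqT_of hF (alls k (List.finRange (q + 1))) (mem_alls fun p => List.mem_finRange p) ?_
    rw [rws_list, rws_list, e3]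
    exact h
  have hstar : ∀ (ρ : Equiv.Perm (Fin (q + 1))) (t : Fin (q + 1) → Equiv.Perm (Fin k)),
      EqT T (RR kx ρ t) (RR kx 1 t) := by
    intro ρ t
    have h := (hno ρ).comp (WW 1 t)
    rw [RR_comp, RR_comp] at h
    simpa using h
  let s : Equiv.Perm (Fin (q + 1)) := Equiv.swap 0 1
  have h01 : (1 : Fin (q + 1)) ≠ 0 := by
    intro h
    have := congrArg Fin.val h
    rw [Fin.val_one', Nat.mod_eq_of_lt (by omega)] at this
    simp at this
  have htw : Tw T ((List.finRange k).map (τ 0)) := ht 0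
  -- the twist of the first row
  have hfst : EqT T (RR kx 1 (Function.update (1 : Fin (q + 1) → Equiv.Perm (Fin k)) 0 (τ 0)))
      (RR kx 1 1) := by
    have h := stab0 h1 hP hF hL hS 1 rfl
      (Function.update (1 : Fin (q + 1) → Equiv.Perm (Fin k)) 1 (τ 0))
      (by rw [Function.update_of_ne (Ne.symm h01)]; rfl) (by
        intro p
        by_cases hp : p = 1
        · subst hp; rw [Function.update_self]; exact htw
        · rw [Function.update_of_ne hp]; exact tw_one)
    have h3 := h.comp (WW s 1)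
    rw [RR_comp, RR_comp] at h3
    have e : (fun p => Function.update (1 : Fin (q + 1) → Equiv.Perm (Fin k)) 1 (τ 0) (s p) *
        (1 : Fin (q + 1) → Equiv.Perm (Fin k)) p) =
        Function.update (1 : Fin (q + 1) → Equiv.Perm (Fin k)) 0 (τ 0) := by
      funext p
      by_cases hp : p = 0
      · subst hp
        simp [s]
      · rw [Function.update_of_ne hp]
        have : s p ≠ 1 := by
          intro h
          have h4 : p = s.symm 1 := by rw [← h]; simp
          apply hp
          rw [h4]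
          simp [s]
        rw [Function.update_of_ne this]
        simp
    rw [e] at h3
    refine (hstar (1 * s) _).symm.trans (h3.trans ?_)
    exact fun w => (congrArg T (List.map_congr_left fun z _ => by simp [RR])).trans (hno s w)
  have hrest : EqT T (RR kx 1 (Function.update τ 0 1)) (RR kx 1 1) :=
    stab0 h1 hP hF hL hS 1 rfl _ (by simp) (by
      intro p
      by_cases hp : p = 0
      · subst hp; rw [Function.update_self]; exact tw_one
      · rw [Function.update_of_ne hp]; exact ht p)
  refine (hstar σ τ).trans ?_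
  have h5 := RR_mul hrest hfst
  have e : (fun p => Function.update τ 0 1 ((1 : Equiv.Perm (Fin (q + 1))) p) *
      Function.update (1 : Fin (q + 1) → Equiv.Perm (Fin k)) 0 (τ 0) p) = τ := by
    funext p
    by_cases hp : p = 0
    · subst hp; simp
    · simp [Function.update_of_ne hp]
  rw [e] at h5
  simpa using h5

/-- The hub cells. -/
def hc (e : Fin q × Fin k → Fin kx) (z : Fin q × Fin k) : Idx kx k := (0, .inl (e z))

/-- The first row of the chunk `i`. -/
def rc (kx : ℕ) {k : ℕ} (i : ℕ) (y : Fin k) : Idx kx k := (i, .inr (0, y))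

/-- Some hub cell is outside. -/
lemma case1 (h1 : T_TWI) (hk : 1 ≤ k) (hP : PatInv T) (hF : FTx T) (hL : LAST T)
    (hS : FarS T q) {cl : Fin kx → Fin kx} {In : Set (Fin kx)}
    (hSP : SPart T (ec cl) univ (BP In)) (e : Fin q × Fin k → Fin kx)
    (he : Function.Injective e) (cc : Fin q → Fin kx) (hcc : Function.Injective cc)
    (hce : ∀ z, cl (e z) = cc z.1)
    (hT : ∀ j, T ((List.finRange k).map fun y => hc e (j, y)) = T (row 0 0))
    (j0 : Fin q) (hj0 : cc j0 ∉ In) :
    EqT T (Sum.elim (hc e) (rc kx 0)) (Sum.elim (hc e) (rc kx 1)) := by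
  classical
  let P := Option {j : Fin q // cc j ∈ In}
  have hcard : Nat.card P ≤ q := by
    have h := Fintype.card_subtype_lt (p := fun j => cc j ∈ In) hj0
    rw [Fintype.card_fin] at h
    simp only [P, Nat.card_eq_fintype_card, Fintype.card_option]
    omega
  let κ := {j : Fin q // cc j ∉ In} × Fin k
  let O : κ → Idx kx k := fun c => hc e (c.1.1, c.2)
  let js : P → ℕ := fun p => (Finite.equivFin P p : ℕ) + 1
  have hjs : Function.Injective js := by
    intro p p' h
    simp only [js, Nat.add_right_cancel_iff] at h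
    exact (Finite.equivFin P).injective (Fin.ext h)
  have key : ∀ i : ℕ, ∃ (σ : Equiv.Perm P) (τ : P → Equiv.Perm (Fin k)),
      (∀ p, Tw T ((List.finRange k).map (τ p))) ∧
      EqT T (Sum.elim O fun z : P × Fin k => z.1.elim (rc kx i z.2) fun j => hc e (j.1, z.2))
        (Sum.elim O fun z : P × Fin k => (js (σ z.1), .inr (0, τ z.1 z.2))) := by
    intro i
    refine iso' hk hP hSP O ?_ _ ?_ (fun p => p.elim (i, .inr 0) fun j => (0, .inl (cc j.1)))
      ?_ ?_ ?_ ?_ js hjs
    · rintro ⟨⟨j, hj⟩, y⟩ hb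
      refine hj (hb (cc j) ?_)
      simp [O, hc, ec, hce]
    · rintro ⟨(_ | j), y⟩ ⟨(_ | j'), y'⟩ h
      · simp only [Option.elim_none, rc, Prod.mk.injEq, Sum.inr.injEq, true_and] at h
        rw [h]
      · simp [rc, hc] at h
      · simp [rc, hc] at h
      · simp only [Option.elim_some, hc, Prod.mk.injEq, Sum.inl.injEq, true_and] at h
        have h2 := he h
        simp only [Prod.mk.injEq] at h2
        rw [Subtype.ext h2.1, h2.2]
    · rintro (_ | j) (_ | j') h
      · rfl
      · simp at h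
      · simp at h
      · simp only [Option.elim_some, Prod.mk.injEq, Sum.inl.injEq, true_and] at h
        rw [Subtype.ext (hcc h)]
    · rintro (_ | ⟨j, hj⟩) β hβ
      · simp at hβ
      · simp only [Option.elim_some, Sum.inl.injEq] at hβ
        rw [← hβ]; exact hj
    · rintro ⟨(_ | j), y⟩
      · simp [rc, ec]
      · simp [hc, ec, hce]
    · rintro (_ | j)
      · have := prt_00 hP i 0 (List.finRange k)
        exact this
      · exact hT j.1
  obtain ⟨σ, τ, ht, hE⟩ := key 0
  obtain ⟨σ', τ', ht', hE'⟩ := key 1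
  have h := hE.trans ((twi' h1 hP hF hL hS hcard 1 O (fun _ => Nat.zero_lt_one)
    (fun p => js (σ p)) (fun p => js (σ' p)) (hjs.comp σ.injective) (hjs.comp σ'.injective)
    (fun p => by simp [js]) (fun p => by simp [js]) (fun p => τ p) (fun p => τ' p) ht ht').trans
    hE'.symm)
  let g : (Fin q × Fin k) ⊕ Fin k → κ ⊕ (P × Fin k) := Sum.elim
    (fun z => if hz : cc z.1 ∈ In then .inr (some ⟨z.1, hz⟩, z.2) else .inl (⟨z.1, hz⟩, z.2))
    (fun y => .inr (none, y))
  have hg : ∀ i : ℕ, (Sum.elim O fun z : P × Fin k => z.1.elim (rc kx i z.2) fun j =>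
      hc e (j.1, z.2)) ∘ g = Sum.elim (hc e) (rc kx i) := by
    intro i
    funext z
    rcases z with ⟨j, y⟩ | y
    · by_cases hz : cc j ∈ In
      · simp [g, hz]
      · simp [g, hz, O]
    · simp [g]
  have h2 := h.comp g
  rw [hg, hg] at h2
  exact h2

/-- All hub cells are inside. -/
lemma case2 (h1 : T_TWI) (h2 : T_GRP) (hk : 1 ≤ k) (hq : 2 ≤ q) (hP : PatInv T) (hF : FTx T)
    (hL : LAST T) (hS : FarS T q) {cl : Fin kx → Fin kx} {In : Set (Fin kx)}
    (hSP : SPart T (ec cl) univ (BP In)) (e : Fin q × Fin k → Fin kx)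
    (he : Function.Injective e) (cc : Fin q → Fin kx) (hcc : Function.Injective cc)
    (hce : ∀ z, cl (e z) = cc z.1)
    (hT : ∀ j, T ((List.finRange k).map fun y => hc e (j, y)) = T (row 0 0))
    (hin : ∀ j, cc j ∈ In)
    (hB : ∀ j, ∀ js' : List ℕ, js'.Perm (List.range q) →
      T (((List.finRange k).map fun y => hc e (j, y)) ++ (js'.map (row 0)).flatten) =
        T (((List.finRange k).map fun y => hc e (j, y)) ++
          ((List.range q).map (row 0)).flatten)) :
    EqT T (Sum.elim (hc e) (rc kx 0)) (Sum.elim (hc e) (rc kx 1)) := by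
  classical
  let E' := Fin q ⊕ (Fin q ⊕ Fin q)
  let X : E' × Fin k → Idx kx k := fun z => Sum.elim (fun j => hc e (j, z.2))
    (Sum.elim (fun i : Fin q => (0, .inr ((i : ℕ), z.2)))
      (fun i : Fin q => ((i : ℕ) + 1, .inr (0, z.2)))) z.1
  let EE : E' → ℕ × (Fin kx ⊕ ℕ) := Sum.elim (fun j => (0, .inl (cc j)))
    (Sum.elim (fun i : Fin q => (0, .inr (i : ℕ))) (fun i : Fin q => ((i : ℕ) + 1, .inr 0)))
  obtain ⟨σE, τE, htE, hE0⟩ := iso' hk hP hSP (κ := Empty) Empty.elim (fun c => c.elim) X (by
      rintro ⟨(j | i | i), y⟩ ⟨(j' | i' | i'), y'⟩ h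
      · simp only [X, Sum.elim_inl, hc, Prod.mk.injEq, Sum.inl.injEq, true_and] at h
        have h2 := he h
        simp only [Prod.mk.injEq] at h2
        rw [h2.1, h2.2]
      · simp [X, hc] at h
      · simp [X, hc] at h
      · simp [X, hc] at h
      · simp only [X, Sum.elim_inr, Sum.elim_inl, Prod.mk.injEq, Sum.inr.injEq, true_and] at h
        rw [Fin.ext h.1, h.2]
      · simp [X] at h
      · simp [X, hc] at h
      · simp [X] at h
      · simp only [X, Sum.elim_inr, Prod.mk.injEq, Sum.inr.injEq, true_and,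
          Nat.add_right_cancel_iff] at h
        rw [Fin.ext h.1, h.2])
    EE (by
      rintro (j | i | i) (j' | i' | i') h
      · simp only [EE, Sum.elim_inl, Prod.mk.injEq, Sum.inl.injEq, true_and] at h
        rw [hcc h]
      · simp [EE] at h
      · simp [EE] at h
      · simp [EE] at h
      · simp only [EE, Sum.elim_inr, Sum.elim_inl, Prod.mk.injEq, Sum.inr.injEq, true_and] at h
        rw [Fin.ext h]
      · simp [EE] at h
      · simp [EE] at h
      · simp [EE] at h
      · simp only [EE, Sum.elim_inr, Prod.mk.injEq, and_true, Nat.add_right_cancel_iff] at h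
        rw [Fin.ext h])
    (by
      rintro (j | i | i) β hβ
      · simp only [EE, Sum.elim_inl, Sum.inl.injEq] at hβ
        rw [← hβ]; exact hin j
      · simp [EE] at hβ
      · simp [EE] at hβ)
    (by
      rintro ⟨(j | i | i), y⟩
      · simp [X, EE, hc, ec, hce]
      · simp [X, EE, ec]
      · simp [X, EE, ec])
    (by
      rintro (j | i | i)
      · exact hT j
      · exact prt_00 hP 0 i (List.finRange k)
      · exact prt_00 hP (i + 1) 0 (List.finRange k))
    (fun p => (Finite.equivFin E' p : ℕ))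
    (fun p p' h => (Finite.equivFin E').injective (Fin.ext h))
  let J : E' → ℕ := fun p => (Finite.equivFin E' (σE p) : ℕ)
  have hJ : Function.Injective J := fun p p' h =>
    σE.injective ((Finite.equivFin E').injective (Fin.ext h))
  have hX : EqT T X (fun z => (J z.1, .inr (0, τE z.1 z.2))) := hE0.comp Sum.inr
  have hu : ∀ u : Fin (q + 1) → E', Function.Injective u → ∃ σ : Equiv.Perm (Fin (q + 1)),
      (∀ p p', σ p < σ p' ↔ J (u p) < J (u p')) ∧
      EqT T (fun z : Fin (q + 1) × Fin k => X (u z.1, z.2)) (RR kx σ fun p => τE (u p)) := by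
    intro u hui
    obtain ⟨σ, hσ⟩ := exists_rank (fun p => J (u p)) (hJ.comp hui)
    exact ⟨σ, hσ, (hX.comp fun z : Fin (q + 1) × Fin k => (u z.1, z.2)).trans
      (compr hP (fun p => J (u p)) (fun p => ((σ p : Fin (q + 1)) : ℕ)) (hJ.comp hui)
        (fun p p' => hσ p p') fun p => τE (u p))⟩
  let z0 : Fin q := ⟨0, by omega⟩
  let u : E' → Fin (q + 1) → E' := fun i => Fin.cases i Sum.inl
  have hui : ∀ i, (∀ j, i ≠ Sum.inl j) → Function.Injective (u i) := by
    intro i hi p p'
    refine Fin.cases ?_ (fun p => ?_) p <;> refine Fin.cases ?_ (fun p' => ?_) p'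
    · intro _; rfl
    · intro h; exact absurd h (hi p')
    · intro h; exact absurd h.symm (hi p)
    · intro h
      have : p = p' := Sum.inl.inj h
      rw [this]
  let g' : (Fin q × Fin k) ⊕ Fin k → Fin (q + 1) × Fin k :=
    Sum.elim (fun z => (z.1.succ, z.2)) (fun y => (0, y))
  have hg0 : (fun z : Fin (q + 1) × Fin k => X (u (.inr (.inl z0)) z.1, z.2)) ∘ g' =
      Sum.elim (hc e) (rc kx 0) := by
    funext z
    rcases z with ⟨j, y⟩ | y
    · rfl
    · rfl
  have hg1 : (fun z : Fin (q + 1) × Fin k => X (u (.inr (.inr z0)) z.1, z.2)) ∘ g' =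
      Sum.elim (hc e) (rc kx 1) := by
    funext z
    rcases z with ⟨j, y⟩ | y
    · rfl
    · rfl
  by_cases hG : ∃ (σ : Equiv.Perm (Fin (q + 1))) (τ : Fin (q + 1) → Equiv.Perm (Fin k)),
      EqT T (RR kx σ τ) (RR kx 1 1) ∧ σ 0 ≠ 0
  · obtain ⟨σ0, τ0, hG0, hG1⟩ := hG
    have key : ∀ i, (∀ j, i ≠ Sum.inl j) →
        EqT T (fun z : Fin (q + 1) × Fin k => X (u i z.1, z.2)) (RR kx 1 1) := by
      intro i hi
      obtain ⟨σ, _, hσ⟩ := hu (u i) (hui i hi)
      exact hσ.trans (case2a h1 h2 hq hP hF hL hS σ0 τ0 hG0 hG1 σ _ fun p => htE _)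
    have h := ((key (.inr (.inl z0)) (fun j => by simp)).trans
      (key (.inr (.inr z0)) (fun j => by simp)).symm).comp g'
    rw [hg0, hg1] at h
    exact h
  · have hU : ∀ (σ σ' : Equiv.Perm (Fin (q + 1))) (τ τ' : Fin (q + 1) → Equiv.Perm (Fin k)),
        EqT T (RR kx σ τ) (RR kx σ' τ') → σ⁻¹ 0 = σ'⁻¹ 0 := by
      intro σ σ' τ τ' h
      obtain ⟨τ'', h'⟩ := RR_div h
      by_contra hne
      refine hG ⟨_, τ'', h', fun h0 => hne ?_⟩
      rw [Equiv.Perm.mul_apply] at h0
      exact Equiv.Perm.inv_eq_iff_eq.mpr h0.symm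
    have hmin : ∀ v : Fin (q + 1) → E', Function.Injective v →
        (∀ i1 i2 : Fin q, EqT T (fun z : Fin (q + 1) × Fin k => X (v z.1, z.2))
          (fun z : Fin (q + 1) × Fin k => X (v (Equiv.swap i1.succ i2.succ z.1), z.2))) →
        ∀ p ≠ 0, J (v 0) < J (v p) := by
      intro v hv hsw p hp
      obtain ⟨σ, hσ, hE⟩ := hu v hv
      suffices h0 : σ 0 = 0 by
        rw [← hσ, h0]
        refine Fin.pos_of_ne_zero fun h => hp ?_
        rw [← h0] at h
        exact σ.injective h
      by_contra hne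
      have hp1 : σ⁻¹ 0 ≠ 0 := fun h => hne (by
        have := Equiv.Perm.inv_eq_iff_eq.mp h
        exact this.symm)
      obtain ⟨i1, hi1⟩ := Fin.exists_succ_eq.mpr hp1
      obtain ⟨i2, hi2⟩ : ∃ i2 : Fin q, i2 ≠ i1 := by
        haveI : Nontrivial (Fin q) := Fin.nontrivial_iff_two_le.mpr hq
        exact exists_ne i1
      have hE' := hE.comp (WW (Equiv.swap i1.succ i2.succ) 1)
      rw [RR_comp] at hE'
      have h3 := hU _ _ _ _ (hE.symm.trans ((hsw i1 i2).trans hE'))
      rw [mul_inv_rev, Equiv.Perm.mul_apply, ← hi1, Equiv.swap_inv, Equiv.swap_apply_left] at h3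
      exact hi2 (Fin.succ_injective _ h3).symm
    have hsw0 : ∀ i1 i2 : Fin q, Equiv.swap i1.succ i2.succ (0 : Fin (q + 1)) = 0 := by
      intro i1 i2
      exact Equiv.swap_apply_of_ne_of_ne (Ne.symm (Fin.succ_ne_zero _))
        (Ne.symm (Fin.succ_ne_zero _))
    have hsws : ∀ i1 i2 i : Fin q, Equiv.swap i1.succ i2.succ i.succ =
        (Equiv.swap i1 i2 i).succ := by
      intro i1 i2 i
      exact ((Fin.succ_injective q).map_swap i1 i2 i).symm
    -- the hub cells come before the rows of the chunk 0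
    have hA : ∀ j, J (.inl j) < J (.inr (.inl z0)) := by
      intro j
      let v : Fin (q + 1) → E' := Fin.cases (.inl j) fun i => .inr (.inl i)
      refine hmin v ?_ ?_ z0.succ (Fin.succ_ne_zero _)
      · intro p p'
        refine Fin.cases ?_ (fun p => ?_) p <;> refine Fin.cases ?_ (fun p' => ?_) p'
        · intro _; rfl
        · intro h; cases h
        · intro h; cases h
        · intro h
          have : p = p' := Sum.inl.inj (Sum.inr.inj h)
          rw [this]
      · intro i1 i2
        let l : List (Fin (q + 1) × Fin k) := (List.finRange k).map (fun y => (0, y)) ++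
          ((List.finRange q).map fun i => (List.finRange k).map fun y => (i.succ, y)).flatten
        have hl : ∀ (w : Fin (q + 1) → E') (ρ : Equiv.Perm (Fin q)), w 0 = .inl j →
            (∀ i : Fin q, w i.succ = .inr (.inl (ρ i))) →
            (l.map fun z => X (w z.1, z.2)) = ((List.finRange k).map fun y => hc e (j, y)) ++
              (((List.finRange q).map fun i => ((ρ i : Fin q) : ℕ)).map (row 0)).flatten := by
          intro w ρ h0 hs
          simp only [l, List.map_append, List.map_map, List.map_flatten]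
          congr 1
          · apply List.map_congr_left
            intro y _
            simp [h0, X]
          · congr 1
            apply List.map_congr_left
            intro i _
            simp only [Function.comp, List.map_map, row, prt]
            apply List.map_congr_left
            intro y _
            simp [hs, X]
        refine eqT_of hF l ?_ ?_
        · rintro ⟨p, y⟩
          refine Fin.cases ?_ (fun p => ?_) p
          · exact List.mem_append_left _ (List.mem_map.mpr ⟨y, List.mem_finRange _, rfl⟩)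
          · refine List.mem_append_right _ (List.mem_flatten.mpr ⟨_, List.mem_map.mpr
              ⟨p, List.mem_finRange _, rfl⟩, List.mem_map.mpr ⟨y, List.mem_finRange _, rfl⟩⟩)
        · rw [hl v 1 rfl (fun _ => rfl), hl (fun p => v (Equiv.swap i1.succ i2.succ p))
            (Equiv.swap i1 i2) (by simp only [hsw0]; rfl) (fun i => by simp only [hsws]; rfl)]
          have e4 : ∀ ρ : Equiv.Perm (Fin q),
              ((List.finRange q).map fun i => ((ρ i : Fin q) : ℕ)).Perm (List.range q) := by
            intro ρ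
            have e1 := (Equiv.Perm.map_finRange_perm ρ).map (fun i : Fin q => (i : ℕ))
            rw [List.map_map] at e1
            have e2 : (List.finRange q).map (fun i : Fin q => (i : ℕ)) = List.range q := by simp
            rw [e2] at e1
            exact e1
          rw [hB j _ (e4 1), hB j _ (e4 (Equiv.swap i1 i2))]
    -- and before the rows of the later chunks
    have hA' : ∀ j, J (.inl j) < J (.inr (.inr z0)) := by
      intro j
      let v : Fin (q + 1) → E' := Fin.cases (.inl j) fun i => .inr (.inr i)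
      refine hmin v ?_ ?_ z0.succ (Fin.succ_ne_zero _)
      · intro p p'
        refine Fin.cases ?_ (fun p => ?_) p <;> refine Fin.cases ?_ (fun p' => ?_) p'
        · intro _; rfl
        · intro h; cases h
        · intro h; cases h
        · intro h
          have : p = p' := Sum.inr.inj (Sum.inr.inj h)
          rw [this]
      · intro i1 i2
        have h := twi' h1 hP hF hL hS (κ := Fin k) (P := Fin q) (by simp) 1
          (fun y => hc e (j, y)) (fun _ => Nat.zero_lt_one)
          (fun p => (p : ℕ) + 1) (fun p => ((Equiv.swap i1 i2 p : Fin q) : ℕ) + 1)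
          (fun p p' h => by
            simp only [Nat.add_right_cancel_iff] at h
            exact Fin.ext h)
          (fun p p' h => by
            simp only [Nat.add_right_cancel_iff] at h
            exact (Equiv.swap i1 i2).injective (Fin.ext h))
          (fun p => by simp) (fun p => by simp)
          (fun _ => ⇑(1 : Equiv.Perm (Fin k))) (fun _ => ⇑(1 : Equiv.Perm (Fin k)))
          (fun _ => tw_one) (fun _ => tw_one)
        have h2 := h.comp (fun z : Fin (q + 1) × Fin k =>
          (Fin.cases (Sum.inl z.2) (fun p => Sum.inr (p, z.2)) z.1 : Fin k ⊕ (Fin q × Fin k)))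
        refine EqT.trans (EqT.trans ?_ h2) ?_
        · intro w
          congr 1
          apply List.map_congr_left
          rintro ⟨p, y⟩ _
          refine Fin.cases ?_ (fun p => ?_) p
          · rfl
          · rfl
        · intro w
          congr 1
          apply List.map_congr_left
          rintro ⟨p, y⟩ _
          refine Fin.cases ?_ (fun p => ?_) p
          · simp only [hsw0]
            rfl
          · simp only [hsws]
            rfl
    obtain ⟨j0, -, hj0⟩ := Finset.exists_min_image (Finset.univ : Finset (Fin q))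
      (fun j => J (.inl j)) ⟨z0, Finset.mem_univ _⟩
    have hj1 : ∀ j, j ≠ j0 → J (.inl j0) + 1 ≤ J (.inl j) := by
      intro j hj
      refine lt_of_le_of_ne (hj0 j (Finset.mem_univ _)) fun h => hj ?_
      exact (Sum.inl.inj (hJ h)).symm
    let P := Option {j : Fin q // j ≠ j0}
    have hcard : Nat.card P ≤ q := by
      have h := Fintype.card_subtype_lt (p := fun j => j ≠ j0) (x := j0) (by simp)
      rw [Fintype.card_fin] at h
      simp only [P, Nat.card_eq_fintype_card, Fintype.card_option]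
      omega
    let O : Fin k → Idx kx k := fun y => (J (.inl j0), .inr (0, τE (.inl j0) y))
    let ww : E' → P → E' := fun i p => p.elim i fun j => .inl j.1
    have hww : ∀ i, (∀ j, i ≠ Sum.inl j) → Function.Injective (ww i) := by
      rintro i hi (_ | j) (_ | j') h
      · rfl
      · exact absurd h (hi _)
      · exact absurd h.symm (hi _)
      · have : j.1 = j'.1 := Sum.inl.inj h
        rw [Subtype.ext this]
    have hwn : ∀ i, J (.inl j0) < J i → ∀ p, J (.inl j0) + 1 ≤ J (ww i p) := by
      rintro i hi (_ | j)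
      · exact hi
      · exact hj1 j.1 j.2
    let g : (Fin q × Fin k) ⊕ Fin k → Fin k ⊕ (P × Fin k) := Sum.elim
      (fun z => if hz : z.1 = j0 then .inl z.2 else .inr (some ⟨z.1, hz⟩, z.2))
      (fun y => .inr (none, y))
    have h := (twi' h1 hP hF hL hS hcard (J (.inl j0) + 1) O (fun _ => Nat.lt_succ_self _)
      (fun p => J (ww (.inr (.inl z0)) p)) (fun p => J (ww (.inr (.inr z0)) p))
      (hJ.comp (hww _ fun j => by simp)) (hJ.comp (hww _ fun j => by simp))
      (hwn _ (hA j0)) (hwn _ (hA' j0)) (fun p => τE (ww (.inr (.inl z0)) p))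
      (fun p => τE (ww (.inr (.inr z0)) p)) (fun p => htE _) (fun p => htE _)).comp g
    have hv : ∀ i : E', EqT T (fun z : (Fin q × Fin k) ⊕ Fin k =>
        X (Sum.elim (fun z : Fin q × Fin k => (Sum.inl z.1, z.2)) (fun y => (i, y)) z))
        ((Sum.elim O fun z : P × Fin k =>
          (J (ww i z.1), .inr (0, τE (ww i z.1) z.2))) ∘ g) := by
      intro i
      refine (hX.comp (Sum.elim (fun z : Fin q × Fin k => (Sum.inl z.1, z.2))
        (fun y => (i, y)))).trans ?_
      intro w
      congr 1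
      apply List.map_congr_left
      rintro (⟨j, y⟩ | y) _
      · by_cases hz : j = j0
        · subst hz
          simp [g, O]
        · simp [g, hz, ww]
      · simp [g, ww]
    have h5 := (hv (.inr (.inl z0))).trans (h.trans (hv (.inr (.inr z0))).symm)
    have e0 : (fun z : (Fin q × Fin k) ⊕ Fin k => X (Sum.elim (fun z : Fin q × Fin k =>
        (Sum.inl z.1, z.2)) (fun y => (.inr (.inl z0), y)) z)) =
        Sum.elim (hc e) (rc kx 0) := by
      funext z
      rcases z with ⟨j, y⟩ | y
      · rfl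
      · rfl
    have e1 : (fun z : (Fin q × Fin k) ⊕ Fin k => X (Sum.elim (fun z : Fin q × Fin k =>
        (Sum.inl z.1, z.2)) (fun y => (.inr (.inr z0), y)) z)) =
        Sum.elim (hc e) (rc kx 1) := by
      funext z
      rcases z with ⟨j, y⟩ | y
      · rfl
      · rfl
    rw [e0, e1] at h5
    exact h5

end Main

/-- Row S3. -/
theorem pf_S3 (h1 : T_TWI) (h2 : T_GRP) : T_S3 := by
  intro kx k q L T cl In Js hk hq hP hF hL _ hSP hlen hperm hJ hcl hS hB
  obtain ⟨e, he, he2, he3⟩ := enum Js hlen hperm fun J hJ' => (hJ J hJ').1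
  let y0 : Fin k := ⟨0, hk⟩
  have hce : ∀ z, cl (e z) = cl (e (z.1, y0)) := fun z =>
    (hcl _ _).mpr ((he3 z (z.1, y0)).mpr rfl)
  have hcc : Function.Injective fun j => cl (e (j, y0)) := by
    intro j j' h
    exact (he3 (j, y0) (j', y0)).mp ((hcl _ _).mp h)
  have hhub : ∀ j, hub (k := k) 0 ((List.finRange k).map fun y => e (j, y)) =
      (List.finRange k).map fun y => hc e (j, y) := by
    intro j
    simp [hub, hc, Function.comp_def]
  have hT : ∀ j, T ((List.finRange k).map fun y => hc e (j, y)) = T (row 0 0) := by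
    intro j
    rw [← hhub]
    exact (hJ _ (he2 j)).2
  have hmain : EqT T (Sum.elim (hc e) (rc kx 0)) (Sum.elim (hc e) (rc kx 1)) := by
    by_cases h : ∃ j, cl (e (j, y0)) ∉ In
    · obtain ⟨j0, hj0⟩ := h
      exact case1 h1 hk hP hF hL hS hSP e he.1 _ hcc hce hT j0 hj0
    · refine case2 h1 h2 hk hq hP hF hL hS hSP e he.1 _ hcc hce hT
        (fun j => by by_contra hj; exact h ⟨j, hj⟩) ?_
      intro j js' hjs'
      rw [← hhub]
      exact hB _ (he2 j) js' hjs'
  let e' := Equiv.ofBijective e he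
  have h := hmain ((List.finRange kx).map (fun b => Sum.inl (e'.symm b)) ++
    (List.finRange k).map Sum.inr)
  have hh : ∀ i, ((List.finRange kx).map (fun b => Sum.inl (e'.symm b)) ++
      (List.finRange k).map Sum.inr).map (Sum.elim (hc e) (rc kx i)) = hubA 0 ++ row i 0 := by
    intro i
    rw [List.map_append, List.map_map, List.map_map]
    congr 1
    unfold hubA hub
    apply List.map_congr_left
    intro b _
    have : e (e'.symm b) = b := Equiv.ofBijective_apply_symm_apply e he b
    simp [hc, this]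
  rw [hh, hh] at h
  exact h

end Pool.Agent.H71.FK
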