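import Pool.Agent.H16.FK.TargetsB
import Pool.Agent.H75.FK.COL

/-!
# From arrays to ultrafilters: common part
-/

set_option autoImplicit false

namespace Pool.Agent.H71.FK

open Set Pool.Agent.H75.HCI Pool.Agent.H41.HI Pool.Agent.H71.HCI Pool.Agent.H16.FK

variable {C : Type} {M : List ℕ → C} {I J : Type}

/-! ## Splittings -/

lemma ev_mixU {V : Ultrafilter (I → ℕ)} {b : I → Bool} {p : (I → ℕ) → Prop} :
    (∀ᶠ z in (mixU V b : Filter (I → ℕ)), p z) ↔
      ∀ᶠ x in (V : Filter (I → ℕ)), ∀ᶠ y in (V : Filter (I → ℕ)),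
        p (fun i => if b i then y i else x i) := by
  unfold mixU
  rw [mem_bind]
  rfl

lemma uf_ext {A : Type} {V W : Ultrafilter A}
    (h : ∀ p : A → Prop, (∀ᶠ x in (V : Filter A), p x) ↔ ∀ᶠ x in (W : Filter A), p x) :
    V = W :=
  Ultrafilter.coe_injective (Filter.ext fun s => h (· ∈ s))

lemma mix_eq {k a b' : ℕ} (V : Ultrafilter (Fin k → ℕ)) (e : Fin a ⊕ Fin b' ≃ Fin k)
    (β : Fin k → Bool) (hβ : ∀ i, β i = (e.symm i).isRight) :
    mixU V β = re (prU (re V (e ∘ Sum.inl)) (re V (e ∘ Sum.inr))) e.symm := by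
  refine uf_ext fun p => ?_
  rw [ev_mixU, ev_re, ev_prU, ev_re]
  refine Filter.eventually_congr (Filter.Eventually.of_forall fun x => ?_)
  rw [ev_re]
  refine Filter.eventually_congr (Filter.Eventually.of_forall fun y => ?_)
  have : (fun i => if β i then y i else x i) =
      Sum.elim (x ∘ e ∘ Sum.inl) (y ∘ e ∘ Sum.inr) ∘ e.symm := by
    funext i
    simp only [Function.comp, hβ]
    rcases h : e.symm i with u | u
    · have : i = e (Sum.inl u) := by rw [← h]; simp
      simp [this]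
    · have : i = e (Sum.inr u) := by rw [← h]; simp
      simp [this]
  rw [this]

lemma wsplit_iff {k : ℕ} (V : Ultrafilter (Fin k → ℕ)) :
    WSplit M V ↔ ∃ b : Fin k → Bool, NC b ∧ typ M V = typ M (mixU V b) := by
  constructor
  · rintro ⟨a, b', e, ha, hb, h⟩
    refine ⟨fun i => (e.symm i).isRight, ⟨⟨e (Sum.inr ⟨0, hb⟩), by simp⟩,
      ⟨e (Sum.inl ⟨0, ha⟩), by simp⟩⟩, ?_⟩
    rw [mix_eq V e _ fun _ => rfl]
    exact h
  · rintro ⟨b, ⟨⟨y, hy⟩, ⟨y', hy'⟩⟩, h⟩
    let e1 := Fintype.equivFin {i : Fin k // b i = false}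
    let e2 := Fintype.equivFin {i : Fin k // ¬ b i = false}
    let e : Fin _ ⊕ Fin _ ≃ Fin k :=
      (Equiv.sumCongr e1.symm e2.symm).trans (Equiv.sumCompl fun i => b i = false)
    refine ⟨_, _, e, ?_, ?_, ?_⟩
    · exact Fintype.card_pos_iff.mpr ⟨⟨y', hy'⟩⟩
    · exact Fintype.card_pos_iff.mpr ⟨⟨y, by simp [hy]⟩⟩
    · rw [← mix_eq V e b]
      · exact h
      · intro i
        obtain ⟨u, rfl⟩ := e.surjective i
        rw [Equiv.symm_apply_apply]
        rcases u with u | u
        · have := (e1.symm u).2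
          simpa [e] using this
        · have := (e2.symm u).2
          simpa [e] using this

/-! ## Injective parts -/

lemma exists_quot [Finite J] (W : Ultrafilter (J → ℕ)) :
    ∃ (mu : ℕ) (e : J → Fin mu) (s : Fin mu → J),
      ∀ᶠ x in (W : Filter (J → ℕ)), x ∘ s ∘ e = x ∧ Function.Injective (x ∘ s) := by
  classical
  obtain ⟨R, -, hR⟩ := exists_const W (fun x => {p : J × J | x p.1 = x p.2}) univ
    (Set.toFinite _) (Filter.Eventually.of_forall fun _ => mem_univ _)
  obtain ⟨x0, hx0⟩ := hR.exists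
  haveI : Finite (range x0) := Set.finite_range x0
  let q := Finite.equivFin (range x0)
  refine ⟨_, fun i => q ⟨x0 i, mem_range_self i⟩, fun u => (q.symm u).2.choose, ?_⟩
  filter_upwards [hR] with x hx
  have hxx : ∀ i j, x i = x j ↔ x0 i = x0 j := by
    intro i j
    have : ((i, j) ∈ {p : J × J | x p.1 = x p.2}) ↔ (i, j) ∈ {p : J × J | x0 p.1 = x0 p.2} := by
      rw [hx, hx0]
    exact this
  constructor
  · funext i
    simp only [Function.comp]
    rw [hxx]
    have := (q.symm (q ⟨x0 i, mem_range_self i⟩)).2.choose_spec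
    rw [this, Equiv.symm_apply_apply]
  · intro u v huv
    simp only [Function.comp] at huv
    rw [hxx, (q.symm u).2.choose_spec, (q.symm v).2.choose_spec] at huv
    exact q.symm.injective (Subtype.ext huv)

/-- Injective sequences of constants which tend to infinity. -/
lemma exists_cst (hcsp : T_CSP) {m : ℕ} (UU : Ultrafilter ℕ) (c : ℕ → Fin m → ℕ) :
    ∃ (kc : ℕ) (c' : ℕ → Fin kc → ℕ) (z0 : List ℕ),
      (∀ᶠ j in (UU : Filter ℕ), Function.Injective (c' j)) ∧
      (∀ b a, ∀ᶠ j in (UU : Filter ℕ), c' j b ≠ a) ∧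
      ∀ i, (∃ b, ∀ᶠ j in (UU : Filter ℕ), c' j b = c j i) ∨
        ∃ a ∈ z0, ∀ᶠ j in (UU : Filter ℕ), c j i = a := by
  obtain ⟨mu, e, s, hes⟩ := exists_quot (UU.map c)
  rw [Ultrafilter.coe_map, Filter.eventually_map] at hes
  obtain ⟨kc, e1, z0, he1, h1, h2⟩ := hcsp mu UU (fun j => c j ∘ s)
  refine ⟨kc, fun j => c j ∘ s ∘ e1, z0, ?_, h1, ?_⟩
  · filter_upwards [hes] with j hj
    exact hj.2.comp he1
  · intro i
    rcases h2 (e i) with ⟨b, hb⟩ | ⟨a, ha, hj⟩
    · left
      refine ⟨b, ?_⟩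
      filter_upwards [hes] with j hj
      simp only [Function.comp, hb]
      exact congrFun hj.1 i
    · right
      refine ⟨a, ha, ?_⟩
      filter_upwards [hes, hj] with j hj h3
      rw [← h3]
      exact (congrFun hj.1 i).symm

/-! ## Words -/

lemma sel_of {α β : Type} {L : List β} {g : α → β} {w : α → ℕ} {l : List α}
    (h : ∀ a ∈ l, L[w a]? = some (g a)) : sel L (l.map w) = l.map g := by
  induction l with
  | nil => rfl
  | cons a l ih =>
    have ih' := ih fun b hb => h b (List.mem_cons_of_mem _ hb)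
    unfold sel at ih' ⊢
    rw [List.map_cons, List.filterMap_cons_some (h a List.mem_cons_self), ih', List.map_cons]

section Words

variable {kc ku k : ℕ}

/-- The list of all marks, hub points and row points. -/
def cvL (D : Dat kc ku k) (j : ℕ) : List (ℕ ⊕ (Fin k ⊕ Fin ku)) :=
  D.z.map Sum.inl ++ (List.finRange (kc + ku)).map
      (fun b => Fin.addCases (fun b' => Sum.inl (D.c j b')) (fun b' => Sum.inr (Sum.inr b')) b) ++
    (List.finRange k).map fun y => Sum.inr (Sum.inl y)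

lemma cv1_eq (D : Dat kc ku k) (j : ℕ) (w : List ℕ) : cv1 D j w = sel (cvL D j) w := rfl

lemma cvL_z (D : Dat kc ku k) (j : ℕ) {a : ℕ} (ha : a ∈ D.z) :
    (cvL D j)[D.z.idxOf a]? = some (Sum.inl a) := by
  unfold cvL
  have h := List.idxOf_lt_length_of_mem ha
  rw [List.getElem?_append_left (by simp; omega), List.getElem?_append_left (by simpa using h)]
  rw [List.getElem?_map, List.getElem?_eq_getElem h]
  simp

lemma cvL_c (D : Dat kc ku k) (j : ℕ) (b : Fin kc) :
    (cvL D j)[D.z.length + b.val]? = some (Sum.inl (D.c j b)) := by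
  unfold cvL
  have hb := b.2
  rw [List.getElem?_append_left (by simp; omega), List.getElem?_append_right (by simp)]
  simp only [List.length_map, Nat.add_sub_cancel_left, List.getElem?_map]
  rw [List.getElem?_eq_getElem (by simp; omega)]
  have e : (List.finRange (kc + ku))[b.val]'(by simp; omega) = Fin.castAdd ku b := by
    apply Fin.ext
    simp
  rw [e]
  simp

lemma cvL_u (D : Dat kc ku k) (j : ℕ) (b : Fin ku) :
    (cvL D j)[D.z.length + (kc + b.val)]? = some (Sum.inr (Sum.inr b)) := by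
  unfold cvL
  have hb := b.2
  rw [List.getElem?_append_left (by simp), List.getElem?_append_right (by simp)]
  simp only [List.length_map, Nat.add_sub_cancel_left, List.getElem?_map]
  rw [List.getElem?_eq_getElem (by simp)]
  have e : (List.finRange (kc + ku))[kc + b.val]'(by simp) = Fin.natAdd kc b := by
    apply Fin.ext
    simp
  rw [e]
  simp

lemma cvL_y (D : Dat kc ku k) (j : ℕ) (y : Fin k) :
    (cvL D j)[D.z.length + (kc + ku) + y.val]? = some (Sum.inr (Sum.inl y)) := by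
  unfold cvL
  have hy := y.2
  rw [List.getElem?_append_right (by simp)]
  simp only [List.length_append, List.length_map, List.length_finRange, Nat.add_sub_cancel_left,
    List.getElem?_map]
  rw [List.getElem?_eq_getElem (by simp)]
  simp

/-- Words over constants, hubs and rows are given by places. -/
lemma exists_w (D : Dat kc ku k) {m : ℕ} (c : ℕ → Fin m → ℕ)
    (hc : ∀ i, (∃ b, ∀ᶠ j in (D.UU : Filter ℕ), D.c j b = c j i) ∨
      ∃ a ∈ D.z, ∀ᶠ j in (D.UU : Filter ℕ), c j i = a)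
    (l : List ((ℕ ⊕ Fin m) ⊕ (Fin k ⊕ Fin ku))) (hl : ∀ a, Sum.inl (Sum.inl a) ∈ l → a ∈ D.z) :
    ∃ w : List ℕ, ∀ᶠ j in (D.UU : Filter ℕ),
      cv1 D j w = l.map (Sum.map (Sum.elim id (c j)) id) := by
  have key : ∀ x : (ℕ ⊕ Fin m) ⊕ (Fin k ⊕ Fin ku), ∃ n : ℕ, x ∈ l →
      ∀ᶠ j in (D.UU : Filter ℕ), (cvL D j)[n]? = some (Sum.map (Sum.elim id (c j)) id x) := by
    rintro ((a | i) | (y | t))
    · refine ⟨D.z.idxOf a, fun hx => Filter.Eventually.of_forall fun j => ?_⟩
      exact cvL_z D j (hl a hx)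
    · rcases hc i with ⟨b, hb⟩ | ⟨a, ha, hj⟩
      · refine ⟨D.z.length + b.val, fun _ => ?_⟩
        filter_upwards [hb] with j hj
        rw [cvL_c, hj]
        rfl
      · refine ⟨D.z.idxOf a, fun _ => ?_⟩
        filter_upwards [hj] with j hj
        rw [cvL_z D j ha, ← hj]
        rfl
    · exact ⟨_, fun _ => Filter.Eventually.of_forall fun j => cvL_y D j y⟩
    · exact ⟨_, fun _ => Filter.Eventually.of_forall fun j => cvL_u D j t⟩
  choose f hf using key
  refine ⟨l.map f, ?_⟩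
  have h2 : ∀ᶠ j in (D.UU : Filter ℕ), ∀ x ∈ l,
      (cvL D j)[f x]? = some (Sum.map (Sum.elim id (c j)) id x) := by
    have := (Filter.eventually_all_finite (l := (D.UU : Filter ℕ)) (I := {x | x ∈ l})
      (List.finite_toSet l) (p := fun x j => (cvL D j)[f x]? =
        some (Sum.map (Sum.elim id (c j)) id x))).mpr (fun x hx => hf x hx)
    exact this
  filter_upwards [h2] with j hj
  rw [cv1_eq]
  exact sel_of hj

end Words

/-! ## The array -/

section Arr

variable {kc ku k : ℕ}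

lemma pp_of {UU : Ultrafilter ℕ} {V : ℕ → Ultrafilter (Fin k → ℕ)}
    (h : Pool.Agent.H71.HCI.PP M UU V) : Pool.Agent.H16.FK.PP M UU V := by
  intro a ha hk
  have hi : Function.Injective a.get := List.nodup_iff_injective_get.mp ha
  obtain ⟨τ, hτ⟩ := h.same a.length a.get hi hk
  refine ⟨τ, ?_⟩
  filter_upwards [hτ] with j hj
  exact ⟨h.tame j a.length a.get hi hk, hj⟩

lemma ge_of_nu {UU : Ultrafilter ℕ} (h : ∀ i, ∀ᶠ j in (UU : Filter ℕ), j ≠ i) (n : ℕ) :
    ∀ᶠ j in (UU : Filter ℕ), n ≤ j := by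
  have h2 : ∀ᶠ j in (UU : Filter ℕ), ∀ i ∈ Finset.range n, j ≠ i :=
    (Finset.eventually_all _).mpr fun i _ => h i
  filter_upwards [h2] with j hj
  by_contra hlt
  exact hj j (Finset.mem_range.mpr (by omega)) rfl

/-- The array has all properties as soon as the marks are large enough. -/
lemma exists_ax (hAXD : T_AXD) (hREAL : T_REAL) (hSEPX : T_SEPX) {r : ℕ} (har : Ar r M)
    (hf : FinL M) (hs : SmallE M (id : ℕ → ℕ) univ) (hk : 1 ≤ k) (D : Dat kc ku k)
    (hD : D.OK) (hPP : Pool.Agent.H16.FK.PP M D.UU D.V) :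
    ∃ z1 : List ℕ, ∀ z : List ℕ, z1 ⊆ z →
      (D.mk' z).OK ∧ AX (TD M (D.mk' z)) ∧ LAST (TD M (D.mk' z)) ∧ Coll (TD M (D.mk' z)) := by
  obtain ⟨z1, hz1⟩ := hSEPX C kc ku k r M D hf har
  refine ⟨z1, fun z hz => ?_⟩
  have hOK : (D.mk' z).OK := ⟨hD.np, hD.cI, hD.cN, hD.vN, hD.uN⟩
  obtain ⟨h1, h2⟩ := hAXD C kc ku k M (D.mk' z) hf hOK hPP (hz1 z hz)
  refine ⟨hOK, h1, h2, ?_⟩
  refine Pool.Agent.H75.FK.pf_COL (z := z) hk hs h1.pat ?_
  intro S
  obtain ⟨pt, hp1, hp2, hp3⟩ := hREAL C kc ku k r M (D.mk' z) hf har hOK S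
  refine ⟨pt, id, hp1, hp2, fun l hl => ?_⟩
  funext w
  exact hp3 l hl w

end Arr

end Pool.Agent.H71.FK
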