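import Pool.Agent.H71.FK.UTHC
import Pool.Agent.H71.FK.S3
import Pool.Agent.H41.FKI.RunB

/-!
# U3: limits of symmetric ultrafilters are symmetric if they are not weakly split
-/

set_option autoImplicit false

namespace Pool.Agent.H71.FK

open Set Filter Pool.Agent.H75.HCI Pool.Agent.H41.HI Pool.Agent.H71.HCI Pool.Agent.H16.FK
  Pool.Agent.H41.FKI

section Grp

variable {kx k n : ℕ} {L : Type} {T : List (Idx kx k) → L}

lemma perm_map (ρ : Equiv.Perm (Fin n)) :
    ((List.finRange n).map fun i => ((ρ i : Fin n) : ℕ)).Perm (List.range n) := by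
  have e1 := (Equiv.Perm.map_finRange_perm ρ).map (fun i : Fin n => (i : ℕ))
  rw [List.map_map] at e1
  have e2 : (List.finRange n).map (fun i : Fin n => (i : ℕ)) = List.range n := by simp
  rw [e2] at e1
  exact e1

lemma exists_perm_map {js' : List ℕ} (hjs : js'.Perm (List.range n)) :
    ∃ ρ : Equiv.Perm (Fin n), js' = (List.finRange n).map fun i => ((ρ i : Fin n) : ℕ) := by
  have hl : js'.length = n := by rw [hjs.length_eq, List.length_range]
  have hn : js'.Nodup := hjs.nodup_iff.mpr List.nodup_range
  have hlt : ∀ i : Fin n, js'[i.1]'(by rw [hl]; exact i.2) < n := fun i =>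
    List.mem_range.mp (hjs.mem_iff.mp (List.getElem_mem _))
  let f : Fin n → Fin n := fun i => ⟨js'[i.1]'(by rw [hl]; exact i.2), hlt i⟩
  have hf : Function.Injective f := by
    intro i i' h
    exact Fin.ext ((hn.getElem_inj_iff).mp (Fin.mk.inj h))
  refine ⟨Equiv.ofBijective f (Finite.injective_iff_bijective.mp hf), ?_⟩
  apply List.ext_getElem
  · simp [hl]
  · intro i h1 h2
    simp [f]

lemma grp_all (h2 : T_GRP) (hP : PatInv T) (hF : FTx T) (hL : LAST T)
    (hall : ∀ ρ : Equiv.Perm (Fin n), ∃ τ', EqT T (RR kx ρ τ') (RR kx 1 1))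
    (js' : List ℕ) (hp : js'.Perm (List.range n)) : T (rws js') = T (rws (List.range n)) := by
  have e3 : (List.finRange n).map (fun i => (((1 : Equiv.Perm (Fin n)) i : Fin n) : ℕ)) =
      List.range n := by
    simp
  refine h2 kx k L T n hP hF hL ?_ js' hp
  intro js1 hjs
  obtain ⟨ρ', hj⟩ := exists_perm_map hjs
  obtain ⟨τ', hτ'⟩ := hall ρ'
  refine ⟨(List.finRange n).map fun p => (List.finRange k).map (τ' p), by simp, ?_, ?_⟩
  · intro a ha
    obtain ⟨p, _, rfl⟩ := List.mem_map.mp ha
    exact ⟨(List.nodup_finRange k).map (τ' p).injective, by simp⟩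
  · rw [hj, ← RR_list, hτ' _, rws_list, e3]

end Grp

section Words

variable {C : Type} {M : List ℕ → C}

/-- Finitely many words decide the full types. -/
lemma ft_of_words {r : ℕ} (har : Ar r M) (l l' : List ℕ) (hl : l.length = l'.length)
    (h : ∀ w : List ℕ, w.length ≤ r → (∀ i ∈ w, i < l.length) → M (sel l w) = M (sel l' w)) :
    ft M l = ft M l' := by
  funext w
  unfold ft
  rw [← sel_filter l w l.length rfl, ← sel_filter l' w l.length hl.symm]
  have hw : ∀ i ∈ w.filter (fun i => decide (i < l.length)), i < l.length := by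
    intro i hi
    simpa using (List.mem_filter.mp hi).2
  generalize w.filter (fun i => decide (i < l.length)) = v at hw
  by_cases hv : v.length ≤ r
  · exact h v hv hw
  · refine har _ _ ?_ ?_
    · rw [sel_eq l v hw, List.length_ofFn]
      omega
    · rw [sel_eq l' v (fun i hi => by rw [← hl]; exact hw i hi), List.length_ofFn]
      omega

lemma ft_part (c y L L' : List ℕ)
    (h : ft M ((c ++ y) ++ L) = ft M ((c ++ y) ++ L')) : ft M (c ++ L) = ft M (c ++ L') := by
  funext w
  let f : ℕ → ℕ := fun i => if i < c.length then i else i + y.length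
  have key : ∀ L : List ℕ, sel (c ++ L) w = sel ((c ++ y) ++ L) (w.map f) := by
    intro L
    unfold sel
    rw [List.filterMap_map]
    congr 1
    funext i
    simp only [Function.comp, f]
    split_ifs with hi
    · rw [List.append_assoc, List.getElem?_append_left hi, List.getElem?_append_left hi]
    · rw [List.getElem?_append_right (by omega), List.getElem?_append_right (by simp; omega)]
      congr 1
      simp
      omega
  unfold ft
  rw [key, key]
  exact congrFun h (w.map f)

end Words

/-- U3. -/
theorem pf_USYM (hTOPC : T_TOPC) (hGRP : T_GRP) (hAXD : T_AXD) (hREAL : T_REAL)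
    (hSEPX : T_SEPX) (hNSD : T_NSD) (hBLD : T_BLD) (hTDV : T_TDV) : T_USYM := by
  classical
  intro r C M har hf hs k hk UU V hPP hns hsym n c σ
  let D0 : Dat 0 0 k := ⟨[], UU, fun _ i => i.elim0, V, fun _ => pure fun i => i.elim0⟩
  have hD0 : D0.OK := by
    refine ⟨ge_of_nu hPP.nu, Eventually.of_forall fun j => Function.injective_of_subsingleton _,
      fun b => b.elim0, Eventually.of_forall fun j => ⟨hPP.ij j, hPP.np j⟩,
      Eventually.of_forall fun j => ⟨?_, fun i => i.elim0⟩⟩
    exact Eventually.of_forall fun x => Function.injective_of_subsingleton _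
  obtain ⟨z1, hz1⟩ := exists_ax hAXD hREAL hSEPX har hf hs hk D0 hD0 (pp_of hPP)
  obtain ⟨z2, hz2⟩ := exists_zb (M := M) (limU UU V) hns
  obtain ⟨hOK, hAX, hLA, hCo⟩ := hz1 (c ++ (z1 ++ z2)) (fun a ha => by simp [ha])
  have hN : NSpl (TD M (D0.mk' (c ++ (z1 ++ z2)))) :=
    hNSD C 0 0 k M (D0.mk' (c ++ (z1 ++ z2))) hf hOK (pp_of hPP)
      (hz2 (c ++ (z1 ++ z2)) (fun a ha => by simp [ha]))
  set D : Dat 0 0 k := D0.mk' (c ++ (z1 ++ z2)) with hDdef
  set T := TD M D with hT
  obtain ⟨In, hIn, hSP⟩ := hTOPC (0 + 0) k _ T (fun b => b) hAX hLA hk hCo hN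
    (fun b => Fin.elim0 b)
  let x : Fin n × Fin k → Idx (0 + 0) k := fun z => (0, .inr ((z.1 : ℕ), z.2))
  have hx : ∀ ρ : Equiv.Perm (Fin n), EqT T (x ∘ WW ρ 1) x := by
    intro ρ
    have hl : ∀ ρ : Equiv.Perm (Fin n), (alls k (List.finRange n)).map (x ∘ WW ρ 1) =
        (((List.finRange n).map fun i => ((ρ i : Fin n) : ℕ)).map (row 0)).flatten := by
      intro ρ
      unfold alls row prt
      rw [List.map_flatten, List.map_map, List.map_map]
      congr 1
      apply List.map_congr_left
      intro p _
      simp [x, WW, Function.comp_def]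
    have hb : ∀ ρ : Equiv.Perm (Fin n), T ((alls k (List.finRange n)).map (x ∘ WW ρ 1)) =
        T (((List.range n).map (row 0)).flatten) := by
      intro ρ
      rw [hl]
      have h := hBLD C 0 k n M D hf hOK (Eventually.of_forall fun j => hsym j n) []
        _ (perm_map ρ)
      exact h
    refine eqT_of hAX.ft (alls k (List.finRange n)) (mem_alls fun p => List.mem_finRange p) ?_
    rw [hb ρ]
    exact (hb 1).symm
  obtain ⟨σ', τ, -, hE⟩ := iso' hk hAX.pat hSP (κ := Empty) Empty.elim (fun c => c.elim) x
    (by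
      rintro ⟨p, y⟩ ⟨p', y'⟩ h
      simp only [x, Prod.mk.injEq, Sum.inr.injEq, true_and] at h
      rw [Fin.ext h.1, h.2])
    (fun p => (0, .inr (p : ℕ))) (fun p p' h => by
      simp only [Prod.mk.injEq, Sum.inr.injEq, true_and] at h
      exact Fin.ext h)
    (fun p β hβ => by simp at hβ) (fun z => rfl) (fun p => prt_00 hAX.pat 0 p (List.finRange k))
    (fun p => (p : ℕ)) Fin.val_injective
  have hE1 : EqT T x (RR (0 + 0) σ' τ) := hE.comp Sum.inr
  have hall : ∀ ρ : Equiv.Perm (Fin n), ∃ τ', EqT T (RR (0 + 0) ρ τ') (RR (0 + 0) 1 1) := by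
    intro ρ
    have h1 := hE1.comp (WW (σ'⁻¹ * ρ * σ') 1)
    rw [RR_comp] at h1
    obtain ⟨τ'', h2⟩ := RR_div (h1.symm.trans ((hx _).trans hE1))
    refine ⟨τ'', ?_⟩
    have e : σ' * (σ'⁻¹ * ρ * σ') * σ'⁻¹ = ρ := by group
    rw [e] at h2
    exact h2
  have hfin : T (rws ((List.finRange n).map fun i => ((σ i : Fin n) : ℕ))) =
      T (rws (List.range n)) := grp_all hGRP hAX.pat hAX.ft hLA hall _ (perm_map σ)
  -- evaluation
  have hprg : Prg ∅ (far (List.range n)) := by
    have h := prg_mix (n := 0) (s := 0) (js := List.range n) List.pairwise_lt_range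
      (fun j _ => Nat.zero_le j)
    simpa using h
  have hitems : ∀ js : List ℕ, (∀ j ∈ js, j < n) → ∀ p ∈ (rws js : List (Idx (0 + 0) k)),
      itp (kc := 0) (ku := 0) p ∈ far (List.range n) := by
    intro js hjs p hp
    obtain ⟨a, ha, ha'⟩ := List.mem_flatten.1 hp
    obtain ⟨j, hj, rfl⟩ := List.mem_map.1 ha
    obtain ⟨y, -, rfl⟩ := List.mem_map.1 ha'
    refine List.mem_flatMap.2 ⟨j, List.mem_range.2 (hjs j hj), ?_⟩
    simp [itp]
  have hlen : ∀ js : List ℕ, (rws js : List (Idx (0 + 0) k)).length = js.length * k := by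
    intro js
    unfold rws row prt
    rw [List.length_flatten, List.map_map]
    simp [Function.comp_def]
  have hzl : D.z = c ++ (z1 ++ z2) := rfl
  have hw : ∀ w : List ℕ, ∀ᶠ s in (run D (far (List.range n)) st0 : Filter (Sta 0 0 k)),
      M (sel (D.z ++ (rws ((List.finRange n).map fun i => ((σ i : Fin n) : ℕ))).map s.pt) w) =
        M (sel (D.z ++ (rws (List.range n)).map s.pt) w) := by
    intro w
    have h1 := hTDV C 0 0 k M D hf (rws ((List.finRange n).map fun i => ((σ i : Fin n) : ℕ)))
      _ hprg (hitems _ (fun j hj => by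
        obtain ⟨i, -, rfl⟩ := List.mem_map.1 hj
        exact (σ i).2)) st0 w
    have h2 := hTDV C 0 0 k M D hf (rws (List.range n)) _ hprg
      (hitems _ (fun j hj => List.mem_range.1 hj)) st0 w
    filter_upwards [h1, h2] with s h3 h4
    rw [h3, h4]
    exact congrFun hfin w
  have hft : ∀ᶠ s in (run D (far (List.range n)) st0 : Filter (Sta 0 0 k)),
      ft M (D.z ++ (rws ((List.finRange n).map fun i => ((σ i : Fin n) : ℕ))).map s.pt) =
        ft M (D.z ++ (rws (List.range n)).map s.pt) := by
    have h1 : ∀ᶠ s in (run D (far (List.range n)) st0 : Filter (Sta 0 0 k)),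
        ∀ w ∈ {w : List ℕ | w.length ≤ r ∧ ∀ i ∈ w, i < D.z.length + n * k},
        M (sel (D.z ++ (rws ((List.finRange n).map fun i => ((σ i : Fin n) : ℕ))).map s.pt) w) =
          M (sel (D.z ++ (rws (List.range n)).map s.pt) w) := by
      refine (Filter.eventually_all_finite ?_).mpr fun w _ => hw w
      have : {w : List ℕ | w.length ≤ r ∧ ∀ i ∈ w, i < D.z.length + n * k} ⊆
          (fun v : List (Fin (D.z.length + n * k)) => v.map Fin.val) ''
            {v | v.length ≤ r} := by
        rintro w ⟨h1, h2⟩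
        obtain ⟨v, hv⟩ := exists_pre (fun i : Fin (D.z.length + n * k) => i.val) w
          (fun i hi => ⟨⟨i, h2 i hi⟩, rfl⟩)
        exact ⟨v, by
          rw [mem_ofPred_eq, ← List.length_map (f := fun i : Fin (D.z.length + n * k) => i.val),
            hv]
          exact h1, hv⟩
      exact ((List.finite_length_le _ r).image _).subset this
    filter_upwards [h1] with s hs
    refine ft_of_words har _ _ ?_ ?_
    · simp only [List.length_append, List.length_map, hlen, List.length_finRange,
        List.length_range]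
    · intro w hw1 hw2
      refine hs w ⟨hw1, fun i hi => ?_⟩
      have := hw2 i hi
      simpa only [List.length_append, List.length_map, hlen, List.length_finRange] using this
  have hgoal := (far_dist (D := D) (List.range n) n List.length_range List.nodup_range st0
    (fun xs => ft M (c ++ fl (xs ∘ σ)) = ft M (c ++ fl xs))).1 ?_
  · exact hgoal
  filter_upwards [hft] with s hs
  have e1 : fl ((fun (i : Fin n) (y : Fin k) => s.pt ((List.range n).get
      (i.cast List.length_range.symm), .inr (0, y))) ∘ σ) =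
      (rws ((List.finRange n).map fun i => ((σ i : Fin n) : ℕ))).map s.pt := by
    unfold rws fl
    rw [map_rows, List.ofFn_eq_map, List.map_map]
    congr 1
    apply List.map_congr_left
    intro i _
    simp
  have e2 : fl (fun (i : Fin n) (y : Fin k) => s.pt ((List.range n).get
      (i.cast List.length_range.symm), .inr (0, y))) = (rws (List.range n)).map s.pt := by
    have e0 : (List.range n) = (List.finRange n).map fun i : Fin n => (i : ℕ) := by simp
    unfold rws fl
    rw [map_rows, List.ofFn_eq_map]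
    rw [show ((List.range n).map fun j => List.ofFn fun y : Fin k => s.pt (j, .inr (0, y))) =
      ((List.finRange n).map fun i : Fin n => (i : ℕ)).map
        (fun j => List.ofFn fun y : Fin k => s.pt (j, .inr (0, y))) by rw [← e0], List.map_map]
    congr 1
    apply List.map_congr_left
    intro i _
    simp
  rw [e1, e2]
  rw [hzl] at hs
  exact ft_part c (z1 ++ z2) _ _ hs

end Pool.Agent.H71.FK
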