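import Pool.Agent.H71.FK.UC

/-!
# U2: Theorem C for ultrafilters
-/

set_option autoImplicit false

namespace Pool.Agent.H71.FK

open Set Filter Pool.Agent.H75.HCI Pool.Agent.H41.HI Pool.Agent.H71.HCI Pool.Agent.H16.FK

variable {C : Type} {M : List ℕ → C} {I J : Type}

lemma exists_pre {α β : Type} (f : α → β) (w : List β) (h : ∀ x ∈ w, ∃ y, f y = x) :
    ∃ l : List α, l.map f = w := by
  induction w with
  | nil => exact ⟨[], rfl⟩
  | cons x w ih =>
    obtain ⟨l, hl⟩ := ih fun y hy => h y (List.mem_cons_of_mem _ hy)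
    obtain ⟨y, hy⟩ := h x List.mem_cons_self
    exact ⟨y :: l, by rw [List.map_cons, hl, hy]⟩

/-- The numbers in a word. -/
def nums {A : Type} (w : List (ℕ ⊕ A)) : List ℕ := w.filterMap Sum.getLeft?

lemma mem_nums {A : Type} {w : List (ℕ ⊕ A)} {a : ℕ} (h : Sum.inl a ∈ w) : a ∈ nums w :=
  List.mem_filterMap.mpr ⟨_, h, rfl⟩

lemma exists_marked {k : ℕ} (z : List ℕ) (w : List (ℕ ⊕ Fin k)) (h : nums w ⊆ z) :
    ∃ l : List (Fin z.length ⊕ Fin k), l.map (Sum.map z.get id) = w := by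
  refine exists_pre _ _ ?_
  rintro (a | y) hx
  · obtain ⟨i, hi⟩ := List.mem_iff_get.mp (h (mem_nums hx))
    exact ⟨Sum.inl i, by rw [← hi]; rfl⟩
  · exact ⟨Sum.inr y, rfl⟩

/-- Marks which show that an ultrafilter is not split. -/
lemma exists_zb {k : ℕ} (W : Ultrafilter (Fin k → ℕ)) (h : ¬ WSplit M W) :
    ∃ z2 : List ℕ, ∀ z : List ℕ, z2 ⊆ z → ∀ b : Fin k → Bool, NC b →
      ∃ l : List (Fin z.length ⊕ Fin k), typ M W (l.map (Sum.map z.get id)) ≠
        typ M (mixU W b) (l.map (Sum.map z.get id)) := by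
  classical
  have hb : ∀ b : Fin k → Bool, ∃ w : List (ℕ ⊕ Fin k), NC b →
      typ M W w ≠ typ M (mixU W b) w := by
    intro b
    by_contra hno
    push Not at hno
    exact h ((wsplit_iff _).mpr ⟨b, (hno []).1, funext fun w => (hno w).2⟩)
  choose wb hwb using hb
  refine ⟨(Finset.univ : Finset (Fin k → Bool)).toList.flatMap fun b => nums (wb b), ?_⟩
  intro z hz b hb
  obtain ⟨l, hl⟩ := exists_marked z (wb b) (fun a ha => hz (List.mem_flatMap.mpr
    ⟨b, by simp, ha⟩))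
  exact ⟨l, by rw [hl]; exact hwb b hb⟩

/-- U2. -/
theorem pf_UTHC (hTOPB : T_TOPB) (hAXD : T_AXD) (hREAL : T_REAL) (hSEPX : T_SEPX)
    (hNSD : T_NSD) (hFSD : T_FSD) (hEV1 : T_EV1) (hEV2 : T_EV2) (hCSP : T_CSP) : T_UTHC := by
  classical
  intro r C M har hf hs k hk UU V hPP hns hsym J _ U hU m c l
  obtain ⟨mu, e, s, hes⟩ := exists_quot (limU UU U)
  rw [ev_limU] at hes
  obtain ⟨kc, c', z0, hc1, hc2, hc3⟩ := exists_cst hCSP UU c
  let U' : ℕ → Ultrafilter (Fin mu → ℕ) := fun j => re (U j) s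
  let D0 : Dat kc mu k := ⟨[], UU, c', V, U'⟩
  have hD0 : D0.OK := by
    refine ⟨ge_of_nu hPP.nu, hc1, hc2, Eventually.of_forall fun j => ⟨hPP.ij j, hPP.np j⟩, ?_⟩
    filter_upwards [hes] with j hj
    refine ⟨?_, np_re (hU j) s⟩
    show ∀ᶠ x in (re (U j) s : Filter (Fin mu → ℕ)), Function.Injective x
    rw [ev_re]
    filter_upwards [hj] with x hx
    exact hx.2
  obtain ⟨z1, hz1⟩ := exists_ax hAXD hREAL hSEPX har hf hs hk D0 hD0 (pp_of hPP)
  obtain ⟨z2, hz2⟩ := exists_zb (M := M) (limU UU V) hns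
  let z3 : List ℕ := l.filterMap fun x => Sum.elim (Sum.elim some fun _ => none) (fun _ => none) x
  let z : List ℕ := z0 ++ z1 ++ z2 ++ z3
  obtain ⟨hOK, hAX, hLA, hCo⟩ := hz1 z (fun a ha => by simp [z, ha])
  have hN : NSpl (TD M (D0.mk' z)) := hNSD C kc mu k M (D0.mk' z) hf hOK (pp_of hPP)
    (hz2 z (fun a ha => by simp [z, ha]))
  have hF : ∀ q, FarS (TD M (D0.mk' z)) q := fun q =>
    hFSD C kc mu k q M (D0.mk' z) hf hOK fun n _ => hsym n
  have hT := hTOPB (kc + mu) k (List ℕ → C) (TD M (D0.mk' z)) hAX hk hCo hN hF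
  obtain ⟨w, hw⟩ := exists_w (D0.mk' z) c (by
      intro i
      rcases hc3 i with ⟨b, hb⟩ | ⟨a, ha, hj⟩
      · exact Or.inl ⟨b, hb⟩
      · exact Or.inr ⟨a, by simp [Dat.mk', z, ha], hj⟩)
    (l.map (Sum.map id (Sum.map id e))) (by
      intro a ha
      obtain ⟨x, hx, hxa⟩ := List.mem_map.mp ha
      rcases x with (a' | i) | t
      · simp only [Sum.map_inl, id, Sum.inl.injEq] at hxa
        subst hxa
        have : a' ∈ z3 := List.mem_filterMap.mpr ⟨_, hx, rfl⟩
        simp [Dat.mk', z, this]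
      · simp at hxa
      · simp at hxa)
  filter_upwards [hes, hw, hEV1 C kc mu k M (D0.mk' z) hf w,
    hEV2 C kc mu k M (D0.mk' z) hf w] with j h1 h2 h3 h4
  have hUe : U j = re (U' j) e := by
    refine uf_ext fun p => ?_
    rw [ev_re]
    show _ ↔ ∀ᶠ x in (re (U j) s : Filter (Fin mu → ℕ)), p (x ∘ e)
    rw [ev_re]
    refine Filter.eventually_congr ?_
    filter_upwards [h1] with x hx
    rw [show ((x ∘ s) ∘ e) = x from hx.1]
  have e1 : prU (V j) (U j) = re (prU (V j) (U' j)) (Sum.map id e) := by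
    rw [hUe]
    refine uf_ext fun p => ?_
    rw [ev_prU, ev_re, ev_prU]
    refine Filter.eventually_congr (Eventually.of_forall fun x => ?_)
    rw [ev_re]
    refine Filter.eventually_congr (Eventually.of_forall fun y => ?_)
    rw [show Sum.elim x (y ∘ e) = Sum.elim x y ∘ Sum.map id e by
      funext t; rcases t with t | t <;> rfl]
  have e2 : re (prU (U j) (limU UU V)) Sum.swap =
      re (re (prU (U' j) (limU UU V)) Sum.swap) (Sum.map id e) := by
    rw [hUe]
    refine uf_ext fun p => ?_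
    rw [ev_re, ev_re, ev_re, ev_prU, ev_prU, ev_re]
    refine Filter.eventually_congr (Eventually.of_forall fun x => ?_)
    refine Filter.eventually_congr (Eventually.of_forall fun y => ?_)
    rw [show Sum.elim (x ∘ e) y ∘ Sum.swap = (Sum.elim x y ∘ Sum.swap) ∘ Sum.map id e by
      funext t; rcases t with t | t <;> rfl]
  rw [e1, e2, typ_re hf, typ_re hf]
  have e3 : List.map (Sum.map id (Sum.map id e))
      (List.map (Sum.map (Sum.elim id (c j)) (id : Fin k ⊕ J → Fin k ⊕ J)) l) =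
        cv1 (D0.mk' z) j w := by
    rw [h2, List.map_map, List.map_map]
    apply List.map_congr_left
    rintro ((a | i) | t) _ <;> rfl
  rw [e3]
  refine (Eq.trans h3 ?_).trans h4.symm
  rw [hT]

end Pool.Agent.H71.FK
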